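import Mathlib

set_option autoImplicit false

open Finset Function

namespace Pool.Agent.N282.FE

lemma pascal_sum (a : ℕ → ℝ) (n : ℕ) :
    ∑ k ∈ range (n + 1), (n.choose k : ℝ) * (a k + a (k + 1)) =
      ∑ k ∈ range (n + 2), ((n + 1).choose k : ℝ) * a k := by
  rw [Finset.sum_range_succ' (fun k => ((n + 1).choose k : ℝ) * a k) (n + 1)]
  have h1 : ∀ k, (((n + 1).choose (k + 1) : ℕ) : ℝ) * a (k + 1) =
      (n.choose k : ℝ) * a (k + 1) + (n.choose (k + 1) : ℝ) * a (k + 1) := by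
    intro k
    rw [Nat.choose_succ_succ]
    push_cast
    ring
  simp_rw [h1, mul_add]
  rw [Finset.sum_add_distrib, Finset.sum_add_distrib]
  have h2 : ∑ k ∈ range (n + 1), (n.choose k : ℝ) * a k =
      ∑ k ∈ range (n + 1), (n.choose (k + 1) : ℝ) * a (k + 1) + a 0 := by
    rw [Finset.sum_range_succ' (fun k => (n.choose k : ℝ) * a k) n,
      Finset.sum_range_succ (fun k => (n.choose (k + 1) : ℝ) * a (k + 1)) n]
    simp
  rw [h2]
  simp
  ring

lemma cs_binom (a : ℕ → ℝ) (ha : ∀ k, 0 ≤ a k) (m : ℕ) :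
    (∑ k ∈ range (m + 2), ((m + 1).choose k : ℝ) * a k) ^ 2 ≤
      (∑ k ∈ range (m + 3), ((m + 2).choose k : ℝ) * a k) *
        (∑ k ∈ range (m + 1), (m.choose k : ℝ) * a k +
          (1 / ((m : ℝ) + 1)) * ∑ k ∈ range (m + 3), ((m + 2).choose k : ℝ) * a k) := by
  have e1 : ∑ k ∈ range (m + 2), ((m + 1).choose k : ℝ) * a k =
      ∑ k ∈ range (m + 3), ((m + 1).choose k : ℝ) * a k := by
    rw [Finset.sum_range_succ _ (m + 2)]
    simp
  have e2 : ∑ k ∈ range (m + 1), (m.choose k : ℝ) * a k =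
      ∑ k ∈ range (m + 3), (m.choose k : ℝ) * a k := by
    rw [Finset.sum_range_succ _ (m + 2), Finset.sum_range_succ _ (m + 1)]
    have h0 : m.choose (m + 2) = 0 := Nat.choose_eq_zero_of_lt (by omega)
    simp [h0]
  rw [e1, e2, Finset.mul_sum, ← Finset.sum_add_distrib]
  have hcs := Finset.sum_sq_le_sum_mul_sum_of_sq_le_mul (range (m + 3))
    (r := fun k => ((m + 1).choose k : ℝ) * a k)
    (f := fun k => ((m + 2).choose k : ℝ) * a k)
    (g := fun k => ((m + 2).choose k : ℝ) * a k * (((m : ℝ) + 2 - k) / ((m : ℝ) + 2)) ^ 2)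
    (fun i _ => mul_nonneg (Nat.cast_nonneg _) (ha i))
    (fun i _ => mul_nonneg (mul_nonneg (Nat.cast_nonneg _) (ha i)) (sq_nonneg _))
    (by
      intro k hk
      have hk' : k ≤ m + 2 := by
        have := Finset.mem_range.mp hk
        omega
      have h1 : (((m + 1).choose k : ℕ) : ℝ) * ((m : ℝ) + 2) =
          ((m + 2).choose k : ℝ) * ((m : ℝ) + 2 - k) := by
        have := Nat.choose_mul_succ_eq (m + 1) k
        have h3 : (((m + 1).choose k * (m + 1 + 1) : ℕ) : ℝ) =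
          (((m + 1 + 1).choose k * (m + 1 + 1 - k) : ℕ) : ℝ) := by rw [this]
        rw [Nat.cast_mul, Nat.cast_mul, Nat.cast_sub (by omega)] at h3
        push_cast at h3
        have e : (m : ℝ) + 1 + 1 = (m : ℝ) + 2 := by ring
        rw [e] at h3
        exact h3
      have hm : (m : ℝ) + 2 ≠ 0 := by positivity
      have h2 : (((m + 1).choose k : ℕ) : ℝ) =
          ((m + 2).choose k : ℝ) * (((m : ℝ) + 2 - k) / ((m : ℝ) + 2)) := by
        field_simp
        linarith
      apply le_of_eq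
      rw [h2]
      ring)
  refine hcs.trans ?_
  apply mul_le_mul_of_nonneg_left
  · apply Finset.sum_le_sum
    intro k hk
    have hk' : k ≤ m + 2 := by
      have := Finset.mem_range.mp hk
      omega
    have hm2 : (0 : ℝ) < (m : ℝ) + 2 := by positivity
    have hm1 : (0 : ℝ) < (m : ℝ) + 1 := by positivity
    have hkr : (k : ℝ) ≤ (m : ℝ) + 2 := by exact_mod_cast hk'
    have hC : (0 : ℝ) ≤ ((m + 2).choose k : ℝ) := Nat.cast_nonneg _
    -- C(m,k) (m+1) (m+2) = C(m+2,k) (m+2-k) (m+1-k)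
    have h4 : (m.choose k : ℝ) * (((m : ℝ) + 1) * ((m : ℝ) + 2)) =
        ((m + 2).choose k : ℝ) * (((m : ℝ) + 2 - k) * ((m : ℝ) + 1 - k)) := by
      rcases Nat.lt_or_ge (m + 1) k with hlt | hge
      · have hk2 : k = m + 2 := by omega
        subst hk2
        have : m.choose (m + 2) = 0 := Nat.choose_eq_zero_of_lt (by omega)
        rw [this]
        push_cast
        ring
      · have t1 := Nat.choose_mul_succ_eq m k
        have t2 := Nat.choose_mul_succ_eq (m + 1) k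
        have h3 : ((m.choose k * (m + 1) : ℕ) : ℝ) =
          (((m + 1).choose k * (m + 1 - k) : ℕ) : ℝ) := by rw [t1]
        have h3' : (((m + 1).choose k * (m + 1 + 1) : ℕ) : ℝ) =
          (((m + 1 + 1).choose k * (m + 1 + 1 - k) : ℕ) : ℝ) := by rw [t2]
        rw [Nat.cast_mul, Nat.cast_mul, Nat.cast_sub (by omega)] at h3 h3'
        push_cast at h3 h3'
        have e : (m : ℝ) + 1 + 1 = (m : ℝ) + 2 := by ring
        rw [e] at h3'
        calc (m.choose k : ℝ) * (((m : ℝ) + 1) * ((m : ℝ) + 2))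
            = ((m.choose k : ℝ) * ((m : ℝ) + 1)) * ((m : ℝ) + 2) := by ring
          _ = (((m + 1).choose k : ℝ) * ((m : ℝ) + 1 - k)) * ((m : ℝ) + 2) := by rw [h3]
          _ = (((m + 1).choose k : ℝ) * ((m : ℝ) + 2)) * ((m : ℝ) + 1 - k) := by ring
          _ = (((m + 2).choose k : ℝ) * ((m : ℝ) + 2 - k)) * ((m : ℝ) + 1 - k) := by rw [h3']
          _ = _ := by ring
    have h5 : (m.choose k : ℝ) = ((m + 2).choose k : ℝ) *
        ((((m : ℝ) + 2 - k) * ((m : ℝ) + 1 - k)) / (((m : ℝ) + 1) * ((m : ℝ) + 2))) := by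
      field_simp
      linarith
    rw [h5]
    set A : ℝ := ((m + 2).choose k : ℝ)
    have key : (((m : ℝ) + 2 - k) / ((m : ℝ) + 2)) ^ 2 ≤
        ((((m : ℝ) + 2 - k) * ((m : ℝ) + 1 - k)) / (((m : ℝ) + 1) * ((m : ℝ) + 2))) +
          1 / ((m : ℝ) + 1) := by
      set t : ℝ := ((m : ℝ) + 2 - k) / ((m : ℝ) + 2) with ht
      have hk3 : (k : ℝ) = ((m : ℝ) + 2) * (1 - t) := by
        rw [ht]; field_simp; ring
      have e : ((((m : ℝ) + 2 - k) * ((m : ℝ) + 1 - k)) / (((m : ℝ) + 1) * ((m : ℝ) + 2))) =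
          t * (((m : ℝ) + 2) * t - 1) / ((m : ℝ) + 1) := by
        rw [hk3]; field_simp; ring
      rw [e, ← add_div, le_div_iff₀ hm1]
      nlinarith [sq_nonneg (t - 1 / 2)]
    have hA : 0 ≤ A * a k := mul_nonneg hC (ha k)
    calc A * a k * (((m : ℝ) + 2 - k) / ((m : ℝ) + 2)) ^ 2
        ≤ A * a k * (((((m : ℝ) + 2 - k) * ((m : ℝ) + 1 - k)) / (((m : ℝ) + 1) * ((m : ℝ) + 2))) +
          1 / ((m : ℝ) + 1)) := mul_le_mul_of_nonneg_left key hA
      _ = _ := by ring
  · exact Finset.sum_nonneg (fun i _ => mul_nonneg (Nat.cast_nonneg _) (ha i))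

section abstract

variable {H P Q : ℝ → ℝ} {D : Set ℝ}

lemma iter_mem {R : ℝ → ℝ} (hR : ∀ y ∈ D, R y ∈ D) (n : ℕ) {w : ℝ} (hw : w ∈ D) :
    R^[n] w ∈ D := by
  induction n with
  | zero => exact hw
  | succ n ih => rw [iterate_succ_apply']; exact hR _ ih

lemma iter_comm {R S : ℝ → ℝ} (h : ∀ y, R (S y) = S (R y)) (n : ℕ) (w : ℝ) :
    R (S^[n] w) = S^[n] (R w) := by
  induction n with
  | zero => rfl
  | succ n ih => rw [iterate_succ_apply', h, ih, ← iterate_succ_apply' S n (R w)]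

lemma sum_formula (hH : ∀ y ∈ D, H y ∈ D) (hP : ∀ y ∈ D, P y ∈ D) (hQ : ∀ y ∈ D, Q y ∈ D)
    (hHP : ∀ y, H (P y) = P (H y)) (hHQ : ∀ y, H (Q y) = Q (H y))
    (hPQ : ∀ y, Q (P y) = P (Q y))
    (habs : ∀ y ∈ D, |H y| = |P y| + |Q y|) (n : ℕ) :
    ∀ w ∈ D, |H^[n] w| = ∑ k ∈ range (n + 1), (n.choose k : ℝ) * |P^[n - k] (Q^[k] w)| := by
  induction n with
  | zero => intro w _; simp
  | succ n ih =>
    intro w hw
    rw [iterate_succ_apply, ih (H w) (hH w hw)]
    have h1 : ∀ k ∈ range (n + 1), (n.choose k : ℝ) * |P^[n - k] (Q^[k] (H w))| =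
        (n.choose k : ℝ) * ((fun j => |P^[n + 1 - j] (Q^[j] w)|) k +
          (fun j => |P^[n + 1 - j] (Q^[j] w)|) (k + 1)) := by
      intro k hk
      have hk' : k ≤ n := by
        have := Finset.mem_range.mp hk
        omega
      have hu : P^[n - k] (Q^[k] w) ∈ D := iter_mem hP _ (iter_mem hQ _ hw)
      have e1 : P^[n - k] (Q^[k] (H w)) = H (P^[n - k] (Q^[k] w)) := by
        rw [iter_comm hHP, iter_comm hHQ]
      rw [e1, habs _ hu]
      have e2 : P (P^[n - k] (Q^[k] w)) = P^[n + 1 - k] (Q^[k] w) := by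
        rw [← iterate_succ_apply' P, show (n - k).succ = n + 1 - k by omega]
      have e3 : Q (P^[n - k] (Q^[k] w)) = P^[n + 1 - (k + 1)] (Q^[k + 1] w) := by
        rw [iter_comm hPQ, ← iterate_succ_apply' Q, show n - k = n + 1 - (k + 1) by omega]
      rw [e2, e3]
    rw [Finset.sum_congr rfl h1, pascal_sum]

/-- log-convexity along orbits. -/
lemma log_convex (hH : ∀ y ∈ D, H y ∈ D) (hP : ∀ y ∈ D, P y ∈ D) (hQ : ∀ y ∈ D, Q y ∈ D)
    (hHP : ∀ y, H (P y) = P (H y)) (hHQ : ∀ y, H (Q y) = Q (H y))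
    (hPQ : ∀ y, Q (P y) = P (Q y))
    (habs : ∀ y ∈ D, |H y| = |P y| + |Q y|)
    (hsurj : ∀ y ∈ D, ∃ w ∈ D, H w = y) :
    ∀ y ∈ D, |H (P y)| ^ 2 ≤ |H (H y)| * |P (P y)| := by
  intro y hy
  have hs : ∀ m : ℕ, ∃ w ∈ D, H^[m] w = y := by
    intro m
    induction m with
    | zero => exact ⟨y, hy, rfl⟩
    | succ m ih =>
      obtain ⟨w, hw, hwy⟩ := ih
      obtain ⟨v, hv, hvw⟩ := hsurj w hw
      exact ⟨v, hv, by rw [iterate_succ_apply, hvw, hwy]⟩
  have main : ∀ m : ℕ, |H (P y)| ^ 2 ≤ |H (H y)| * (|P (P y)| + (1 / ((m : ℝ) + 1)) * |H (H y)|) := by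
    intro m
    obtain ⟨w, hw, hwy⟩ := hs m
    have sf := sum_formula hH hP hQ hHP hHQ hPQ habs
    have s2 := sf (m + 2) w hw
    have s1 := sf (m + 1) (P w) (hP w hw)
    have s0 := sf m (P (P w)) (hP _ (hP w hw))
    have t2 : H^[m + 2] w = H (H y) := by
      rw [show m + 2 = (m + 1).succ by rfl, iterate_succ_apply', iterate_succ_apply', hwy]
    have t1 : H^[m + 1] (P w) = H (P y) := by
      rw [iterate_succ_apply', ← iter_comm (R := P) (S := H) (fun z => (hHP z).symm), hwy]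
    have t0 : H^[m] (P (P w)) = P (P y) := by
      rw [← iter_comm (R := P) (S := H) (fun z => (hHP z).symm),
        ← iter_comm (R := P) (S := H) (fun z => (hHP z).symm), hwy]
    rw [t2] at s2
    rw [t1] at s1
    rw [t0] at s0
    set a : ℕ → ℝ := fun k => |P^[m + 2 - k] (Q^[k] w)| with ha
    have u1 : ∑ k ∈ range (m + 1 + 1), ((m + 1).choose k : ℝ) * |P^[m + 1 - k] (Q^[k] (P w))| =
        ∑ k ∈ range (m + 2), ((m + 1).choose k : ℝ) * a k := by
      apply Finset.sum_congr rfl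
      intro k hk
      have hk' : k ≤ m + 1 := by
        have := Finset.mem_range.mp hk
        omega
      rw [ha]
      simp only
      rw [← iter_comm (R := P) (S := Q) (fun z => (hPQ z).symm), ← iterate_succ_apply P,
        show (m + 1 - k).succ = m + 2 - k by omega]
    have u0 : ∑ k ∈ range (m + 1), (m.choose k : ℝ) * |P^[m - k] (Q^[k] (P (P w)))| =
        ∑ k ∈ range (m + 1), (m.choose k : ℝ) * a k := by
      apply Finset.sum_congr rfl
      intro k hk
      have hk' : k ≤ m := by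
        have := Finset.mem_range.mp hk
        omega
      rw [ha]
      simp only
      rw [← iter_comm (R := P) (S := Q) (fun z => (hPQ z).symm),
        ← iter_comm (R := P) (S := Q) (fun z => (hPQ z).symm), ← iterate_succ_apply P,
        ← iterate_succ_apply P,
        show (m - k).succ.succ = m + 2 - k by omega]
    rw [u1] at s1
    rw [u0] at s0
    have := cs_binom a (fun k => abs_nonneg _) m
    rw [← s1, ← s0] at this
    have u2 : ∑ k ∈ range (m + 3), ((m + 2).choose k : ℝ) * a k = |H (H y)| := by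
      rw [s2]
    rw [u2] at this
    exact this
  by_contra hcon
  push Not at hcon
  have hA : 0 ≤ |H (H y)| := abs_nonneg _
  set A := |H (H y)| with hAdef
  set gap := |H (P y)| ^ 2 - A * |P (P y)| with hgap
  have hgpos : 0 < gap := by rw [hgap]; linarith
  obtain ⟨m, hm⟩ := exists_nat_gt (A ^ 2 / gap)
  have hm1 : (0 : ℝ) < (m : ℝ) + 1 := by positivity
  have h1 := main m
  have h2 : A * ((1 / ((m : ℝ) + 1)) * A) < gap := by
    have : A ^ 2 < gap * ((m : ℝ) + 1) := by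
      rw [div_lt_iff₀ hgpos] at hm
      nlinarith
    rw [show A * ((1 / ((m : ℝ) + 1)) * A) = A ^ 2 / ((m : ℝ) + 1) by ring, div_lt_iff₀ hm1]
    exact this
  have h3 : gap ≤ A * ((1 / ((m : ℝ) + 1)) * A) := by
    rw [hgap]
    nlinarith
  linarith

end abstract

end Pool.Agent.N282.FE
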