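import Mathlib

set_option autoImplicit false

open Function

namespace Pool.Agent.N282.FE

section orbit

variable {T : ℝ → ℝ}

lemma iter_pos (hpos : ∀ y, 0 < y → 0 < T y) (n : ℕ) {u : ℝ} (hu : 0 < u) : 0 < T^[n] u := by
  induction n with
  | zero => exact hu
  | succ n ih => rw [iterate_succ_apply']; exact hpos _ ih

lemma iter_zero' (h0 : T 0 = 0) (n : ℕ) : T^[n] 0 = 0 := by
  induction n with
  | zero => rfl
  | succ n ih => rw [iterate_succ_apply', ih, h0]

lemma ratio_mono (hpos : ∀ y, 0 < y → 0 < T y) (hlog : ∀ y, 0 < y → (T y) ^ 2 ≤ y * T (T y))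
    (n : ℕ) {u : ℝ} (hu : 0 < u) : T u * T^[n] u ≤ T^[n + 1] u * u := by
  induction n with
  | zero => simp
  | succ n ih =>
    have h1 := iter_pos hpos n hu
    have h2 := hlog _ h1
    rw [← iterate_succ_apply' T n u, ← iterate_succ_apply' T (n + 1) u] at h2
    have h3 := iter_pos hpos (n + 1) hu
    have h4 : T^[n] u * (T u * T^[n + 1] u) ≤ T^[n] u * (T^[n + 1 + 1] u * u) := by
      calc T^[n] u * (T u * T^[n + 1] u) = (T u * T^[n] u) * T^[n + 1] u := by ring
        _ ≤ (T^[n + 1] u * u) * T^[n + 1] u := mul_le_mul_of_nonneg_right ih h3.le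
        _ = (T^[n.succ] u) ^ 2 * u := by rw [show n.succ = n + 1 by rfl]; ring
        _ ≤ (T^[n] u * T^[(n + 1).succ] u) * u := mul_le_mul_of_nonneg_right h2 hu.le
        _ = T^[n] u * (T^[n + 1 + 1] u * u) := by rw [show (n + 1).succ = n + 1 + 1 by rfl]; ring
    exact le_of_mul_le_mul_left h4 h1

lemma lower_pow (hpos : ∀ y, 0 < y → 0 < T y) (hlog : ∀ y, 0 < y → (T y) ^ 2 ≤ y * T (T y))
    {c u : ℝ} (hu : 0 < u) (hc : 0 ≤ c) (h : c * u ≤ T u) (n : ℕ) : c ^ n * u ≤ T^[n] u := by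
  induction n with
  | zero => simp
  | succ n ih =>
    have h1 := ratio_mono hpos hlog n hu
    have h2 := iter_pos hpos n hu
    have h3 : u * (c ^ (n + 1) * u) ≤ u * T^[n + 1] u := by
      calc u * (c ^ (n + 1) * u) = (c * u) * (c ^ n * u) := by ring
        _ ≤ T u * T^[n] u := by
            apply mul_le_mul h ih (by positivity) (hpos u hu).le
        _ ≤ T^[n + 1] u * u := h1
        _ = _ := by ring
    exact le_of_mul_le_mul_left h3 hu

lemma upper_pow (hpos : ∀ y, 0 < y → 0 < T y) (hlog : ∀ y, 0 < y → (T y) ^ 2 ≤ y * T (T y))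
    {c x : ℝ} (hc : 0 ≤ c) (h : T x ≤ c * x) (hx : 0 < x) (n : ℕ) :
    ∀ v, 0 < v → T^[n] v = x → x ≤ c ^ n * v := by
  induction n with
  | zero => intro v _ hv; simp at hv; simp [hv]
  | succ n ih =>
    intro v hv hvx
    have h1 : x ≤ c ^ n * T v := ih (T v) (hpos v hv) (by rw [← iterate_succ_apply]; exact hvx)
    have h2 := ratio_mono hpos hlog (n + 1) hv
    rw [iterate_succ_apply' T (n + 1) v, hvx] at h2
    have h3 : T v ≤ c * v := by
      have : x * T v ≤ x * (c * v) := by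
        calc x * T v = T v * x := by ring
          _ ≤ T x * v := h2
          _ ≤ (c * x) * v := mul_le_mul_of_nonneg_right h hv.le
          _ = _ := by ring
      exact le_of_mul_le_mul_left this hx
    calc x ≤ c ^ n * T v := h1
      _ ≤ c ^ n * (c * v) := mul_le_mul_of_nonneg_left h3 (pow_nonneg hc n)
      _ = c ^ (n + 1) * v := by ring

lemma preimage_iter (hT : Continuous T) (h0 : T 0 = 0) (n : ℕ) {u x : ℝ} (hu : 0 < u)
    (hx : 0 < x) (h : x ≤ T^[n] u) : ∃ v, 0 < v ∧ v ≤ u ∧ T^[n] v = x := by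
  have hc : ContinuousOn (T^[n]) (Set.Icc 0 u) := (hT.iterate n).continuousOn
  have := intermediate_value_Icc hu.le hc
  have hmem : x ∈ Set.Icc (T^[n] 0) (T^[n] u) := by
    rw [iter_zero' h0]
    exact ⟨hx.le, h⟩
  obtain ⟨v, hv, hvx⟩ := this hmem
  refine ⟨v, ?_, hv.2, hvx⟩
  rcases hv.1.eq_or_lt with h1 | h1
  · exfalso
    rw [← h1, iter_zero' h0] at hvx
    linarith
  · exact h1

/-- expanding case: near `0` the ratio `T u / u` is at most its value anywhere. -/
lemma expand (hT : Continuous T) (h0 : T 0 = 0) (hgt : ∀ y, 0 < y → y < T y)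
    (hlog : ∀ y, 0 < y → (T y) ^ 2 ≤ y * T (T y)) {x ε : ℝ} (hx : 0 < x) (hε : 0 < ε) :
    ∃ δ > 0, ∀ u, 0 < u → u < δ → T u ≤ (T x / x + ε) * u := by
  have hpos : ∀ y, 0 < y → 0 < T y := fun y hy => hy.trans (hgt y hy)
  set c := T x / x with hc
  have hc1 : 1 < c := by rw [hc, lt_div_iff₀ hx]; linarith [hgt x hx]
  have hc0 : 0 < c := by linarith
  have hcx : T x = c * x := by rw [hc]; field_simp
  obtain ⟨N, hN⟩ : ∃ N : ℕ, c < ((c + ε) / c) ^ N :=
    pow_unbounded_of_one_lt c (by rw [lt_div_iff₀ hc0]; linarith)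
  have hcont : ContinuousAt (T^[N]) 0 := (hT.iterate N).continuousAt
  rw [Metric.continuousAt_iff] at hcont
  obtain ⟨δ, hδ, hδ'⟩ := hcont x hx
  refine ⟨δ, hδ, ?_⟩
  intro u hu huδ
  by_contra hcon
  push Not at hcon
  have hlow : ∀ n, (c + ε) ^ n * u ≤ T^[n] u :=
    lower_pow hpos hlog hu (by linarith) hcon.le
  have hmono : ∀ j n : ℕ, j ≤ n → T^[j] u ≤ T^[n] u := by
    intro j n hjn
    induction n, hjn using Nat.le_induction with
    | base => exact le_rfl
    | succ n _ ih =>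
      rw [iterate_succ_apply']
      exact ih.trans (hgt _ (iter_pos hpos n hu)).le
  have hNx : T^[N] u < x := by
    have := hδ' (x := u) (by rw [Real.dist_eq, sub_zero, abs_of_pos hu]; exact huδ)
    rw [iter_zero' h0, Real.dist_eq, sub_zero] at this
    exact (le_abs_self _).trans_lt this
  have hex : ∃ n, x ≤ T^[n] u := by
    obtain ⟨n, hn⟩ := pow_unbounded_of_one_lt (x / u) (show 1 < c + ε by linarith)
    refine ⟨n, ?_⟩
    rw [div_lt_iff₀ hu] at hn
    exact hn.le.trans (hlow n)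
  classical
  let n := Nat.find hex
  have hn1 : x ≤ T^[n] u := Nat.find_spec hex
  have hn2 : ∀ j, j < n → T^[j] u < x := fun j hj => not_le.mp (Nat.find_min hex hj)
  have hNn : N < n := by
    by_contra h
    push Not at h
    exact absurd ((hn1.trans (hmono n N h))) (not_le.mpr hNx)
  obtain ⟨m, hm⟩ : ∃ m, n = m + 1 := ⟨n - 1, by omega⟩
  have hmx : T^[m] u < x := hn2 m (by omega)
  rw [hm] at hn1
  obtain ⟨v, hv0, hvu, hvx⟩ := preimage_iter hT h0 (m + 1) hu hx hn1
  have h1 : x ≤ c ^ (m + 1) * v := upper_pow hpos hlog hc0.le hcx.le hx (m + 1) v hv0 hvx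
  have h2 : (c + ε) ^ m * u < c ^ (m + 1) * u := by
    calc (c + ε) ^ m * u ≤ T^[m] u := hlow m
      _ < x := hmx
      _ ≤ c ^ (m + 1) * v := h1
      _ ≤ c ^ (m + 1) * u := mul_le_mul_of_nonneg_left hvu (by positivity)
  have h3 : (c + ε) ^ m < c ^ (m + 1) := lt_of_mul_lt_mul_right h2 hu.le
  have h4 : ((c + ε) / c) ^ m < c := by
    rw [div_pow, div_lt_iff₀ (by positivity)]
    calc (c + ε) ^ m < c ^ (m + 1) := h3
      _ = c * c ^ m := by ring
  have h5 : ((c + ε) / c) ^ N ≤ ((c + ε) / c) ^ m := by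
    apply pow_le_pow_right₀ _ (by omega)
    rw [le_div_iff₀ hc0]; linarith
  linarith

/-- contracting case: near `0` the ratio `T u / u` is at least its value anywhere. -/
lemma contract (hT : Continuous T) (h0 : T 0 = 0) (hpos : ∀ y, 0 < y → 0 < T y)
    (hlt : ∀ y, 0 < y → T y < y)
    (hlog : ∀ y, 0 < y → (T y) ^ 2 ≤ y * T (T y)) {x ε : ℝ} (hx : 0 < x) (hε : 0 < ε) :
    ∃ δ > 0, ∀ u, 0 < u → u < δ → (T x / x - ε) * u ≤ T u := by
  set c := T x / x with hc
  have hc0 : 0 < c := div_pos (hpos x hx) hx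
  have hcx : c * x = T x := by rw [hc]; field_simp
  rcases le_or_gt (c - ε) 0 with hce | hce
  · refine ⟨1, one_pos, ?_⟩
    intro u hu _
    have := hpos u hu
    nlinarith
  obtain ⟨N, hN⟩ : ∃ N : ℕ, 1 / c < (c / (c - ε)) ^ N :=
    pow_unbounded_of_one_lt (1 / c) (by rw [lt_div_iff₀ hce]; linarith)
  refine ⟨T^[N] x, iter_pos hpos N hx, ?_⟩
  intro u hu huδ
  by_contra hcon
  push Not at hcon
  have hmono : ∀ j n : ℕ, j ≤ n → T^[n] x ≤ T^[j] x := by
    intro j n hjn
    induction n, hjn using Nat.le_induction with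
    | base => exact le_rfl
    | succ n _ ih =>
      rw [iterate_succ_apply']
      exact (hlt _ (iter_pos hpos n hx)).le.trans ih
  have hup : ∀ n, u < T^[n] x → u ≤ (c - ε) ^ n * x := by
    intro n hn
    obtain ⟨v, hv0, hvx, hvu⟩ := preimage_iter hT h0 n hx hu hn.le
    have := upper_pow hpos hlog hce.le hcon.le hu n v hv0 hvu
    exact this.trans (mul_le_mul_of_nonneg_left hvx (pow_nonneg hce.le n))
  have hc1 : c < 1 := by rw [hc, div_lt_one hx]; exact hlt x hx
  have hex : ∃ n, T^[n] x ≤ u := by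
    by_contra hne
    push Not at hne
    obtain ⟨n, hn⟩ := exists_pow_lt_of_lt_one (show 0 < u / x by positivity)
      (show c - ε < 1 by linarith)
    rw [lt_div_iff₀ hx] at hn
    exact absurd (hup n (hne n)) (not_le.mpr hn)
  classical
  let n := Nat.find hex
  have hn1 : T^[n] x ≤ u := Nat.find_spec hex
  have hn2 : ∀ j, j < n → u < T^[j] x := fun j hj => not_le.mp (Nat.find_min hex hj)
  have hNn : N < n := by
    by_contra h
    push Not at h
    exact absurd ((hmono n N h).trans hn1) (not_le.mpr huδ)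
  obtain ⟨m, hm⟩ : ∃ m, n = m + 1 := ⟨n - 1, by omega⟩
  have hmx : u < T^[m] x := hn2 m (by omega)
  rw [hm] at hn1
  have h1 := hup m hmx
  have h2 : c ^ (m + 1) * x ≤ T^[m + 1] x := lower_pow hpos hlog hx hc0.le hcx.le (m + 1)
  have h3 : c ^ (m + 1) ≤ (c - ε) ^ m := by
    have : c ^ (m + 1) * x ≤ (c - ε) ^ m * x := h2.trans (hn1.trans h1)
    exact le_of_mul_le_mul_right this hx
  have h4 : (c / (c - ε)) ^ m ≤ 1 / c := by
    rw [div_pow, div_le_div_iff₀ (by positivity) hc0]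
    calc c ^ m * c = c ^ (m + 1) := by ring
      _ ≤ (c - ε) ^ m := h3
      _ = 1 * (c - ε) ^ m := by ring
  have h5 : (c / (c - ε)) ^ N ≤ (c / (c - ε)) ^ m := by
    apply pow_le_pow_right₀ _ (by omega)
    rw [le_div_iff₀ hce]; linarith
  linarith

end orbit

/-- moves towards `0` which increase the ratio `F u / u`. -/
lemma moves {F : ℝ → ℝ} (hF : Continuous F)
    (hmove : ∀ s, 0 < s → ∃ t, 0 < t ∧ t < s ∧ F s * t ≤ F t * s) {x δ : ℝ} (hx : 0 < x)
    (hδ : 0 < δ) : ∃ u, 0 < u ∧ u < δ ∧ F x * u ≤ F u * x := by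
  by_contra hne
  push Not at hne
  have hxδ : δ ≤ x := by
    by_contra h
    push Not at h
    exact absurd (hne x hx h) (by simp)
  let S : Set ℝ := {u | u ∈ Set.Icc δ x ∧ F x * u ≤ F u * x}
  have hS : IsCompact S := by
    apply IsCompact.inter_right isCompact_Icc
    exact isClosed_le (continuous_const.mul continuous_id) (hF.mul continuous_const)
  obtain ⟨s, hs⟩ := hS.exists_isLeast ⟨x, ⟨⟨hxδ, le_rfl⟩, le_rfl⟩⟩
  have hsS := hs.1
  have hs0 : 0 < s := hδ.trans_le hsS.1.1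
  obtain ⟨t, ht0, hts, htF⟩ := hmove s hs0
  have h1 : F x * t ≤ F t * x := by
    have : s * (F x * t) ≤ s * (F t * x) := by
      calc s * (F x * t) = (F x * s) * t := by ring
        _ ≤ (F s * x) * t := mul_le_mul_of_nonneg_right hsS.2 ht0.le
        _ = (F s * t) * x := by ring
        _ ≤ (F t * s) * x := mul_le_mul_of_nonneg_right htF hx.le
        _ = _ := by ring
    exact le_of_mul_le_mul_left this hs0
  rcases lt_or_ge t δ with h | h
  · exact absurd (hne t ht0 h) (not_lt.mpr h1)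
  · have : t ∈ S := ⟨⟨h, hts.le.trans hsS.1.2⟩, h1⟩
    exact absurd (hs.2 this) (not_le.mpr hts)

/-- expanding map with ratio-increasing moves towards zero: the ratio is constant. -/
lemma const_expand {T : ℝ → ℝ} (hT : Continuous T) (h0 : T 0 = 0)
    (hgt : ∀ y, 0 < y → y < T y)
    (hlog : ∀ y, 0 < y → (T y) ^ 2 ≤ y * T (T y))
    (hmove : ∀ s, 0 < s → ∃ t, 0 < t ∧ t < s ∧ T s * t ≤ T t * s) {x y : ℝ} (hx : 0 < x)
    (hy : 0 < y) : T x * y ≤ T y * x := by
  have key : ∀ ε > 0, T x / x ≤ T y / y + ε := by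
    intro ε hε
    obtain ⟨δ, hδ, h1⟩ := expand hT h0 hgt hlog hy hε
    obtain ⟨u, hu0, huδ, h2⟩ := moves hT hmove hx hδ
    have h3 := h1 u hu0 huδ
    have h4 : T x / x ≤ T u / u := by
      rw [div_le_div_iff₀ hx hu0]; exact h2
    have h5 : T u / u ≤ T y / y + ε := by
      rw [div_le_iff₀ hu0]; exact h3
    linarith
  have := le_of_forall_pos_le_add key
  rwa [div_le_div_iff₀ hx hy] at this

/-- contracting map with ratio-decreasing moves towards zero: the ratio is constant. -/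
lemma const_contract {T : ℝ → ℝ} (hT : Continuous T) (h0 : T 0 = 0)
    (hpos : ∀ y, 0 < y → 0 < T y) (hlt : ∀ y, 0 < y → T y < y)
    (hlog : ∀ y, 0 < y → (T y) ^ 2 ≤ y * T (T y))
    (hmove : ∀ s, 0 < s → ∃ t, 0 < t ∧ t < s ∧ T t * s ≤ T s * t) {x y : ℝ} (hx : 0 < x)
    (hy : 0 < y) : T x * y ≤ T y * x := by
  have key : ∀ ε > 0, T x / x ≤ T y / y + ε := by
    intro ε hε
    obtain ⟨δ, hδ, h1⟩ := contract hT h0 hpos hlt hlog hx hε
    obtain ⟨u, hu0, huδ, h2⟩ := moves (F := fun z => -T z) hT.neg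
      (fun s hs => by
        obtain ⟨t, ht, hts, h⟩ := hmove s hs
        exact ⟨t, ht, hts, by linarith⟩) hy hδ
    have h3 := h1 u hu0 huδ
    have h4 : T u / u ≤ T y / y := by
      rw [div_le_div_iff₀ hu0 hy]; linarith
    have h5 : T x / x - ε ≤ T u / u := by
      rw [le_div_iff₀ hu0]; exact h3
    linarith
  have := le_of_forall_pos_le_add key
  rwa [div_le_div_iff₀ hx hy] at this

end Pool.Agent.N282.FE
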