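import Mathlib
import Pool.Agent.N282.FEa
import Pool.Agent.N282.FEb

set_option autoImplicit false

open Function

namespace Pool.Agent.N282.FE

/-- continuous solutions of the functional equation. -/
structure Sol (f : ℝ → ℝ) : Prop where
  cont : Continuous f
  eq : ∀ x, f (x + f x) = f x + f (f x)

/-- the map `x + f x`. -/
def G (f : ℝ → ℝ) (x : ℝ) : ℝ := x + f x

variable {f : ℝ → ℝ}

lemma Sol.zero (h : Sol f) : f 0 = 0 := by
  have := h.eq 0
  rw [zero_add] at this
  linarith

lemma Sol.comm (h : Sol f) (x : ℝ) : f (G f x) = G f (f x) := h.eq x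

lemma Sol.G_cont (h : Sol f) : Continuous (G f) := continuous_id.add h.cont

lemma Sol.G_zero (h : Sol f) : G f 0 = 0 := by simp [G, h.zero]

lemma Sol.neg (h : Sol f) : Sol (fun x => -f (-x)) where
  cont := (h.cont.comp continuous_neg).neg
  eq := by
    intro x
    have := h.eq (-x)
    simp only [neg_add, neg_neg]
    linarith

/-- linearity on the half line where `f` is positive. -/
theorem linear_of_pos (h : Sol f) (hpos : ∀ x, 0 < x → 0 < f x) {x y : ℝ} (hx : 0 < x)
    (hy : 0 < y) : f x * y ≤ f y * x := by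
  have hGpos : ∀ y ∈ Set.Ioi (0 : ℝ), G f y ∈ Set.Ioi (0 : ℝ) := by
    intro y hy
    have := hpos y hy
    simp only [Set.mem_Ioi, G] at *
    linarith
  have hfpos : ∀ y ∈ Set.Ioi (0 : ℝ), f y ∈ Set.Ioi (0 : ℝ) := fun y hy => hpos y hy
  have hid : ∀ y ∈ Set.Ioi (0 : ℝ), id y ∈ Set.Ioi (0 : ℝ) := fun y hy => hy
  have hsurj : ∀ y ∈ Set.Ioi (0 : ℝ), ∃ w ∈ Set.Ioi (0 : ℝ), G f w = y := by
    intro y hy
    have hy' : 0 < y := hy
    obtain ⟨v, hv0, _, hv⟩ := preimage_iter h.G_cont h.G_zero 1 hy' hy'
      (by simp only [iterate_one, G]; linarith [hpos y hy'])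
    exact ⟨v, hv0, hv⟩
  have hlog1 : ∀ y, 0 < y → (G f y) ^ 2 ≤ y * G f (G f y) := by
    intro y hy
    have := log_convex (H := G f) (P := id) (Q := f) (D := Set.Ioi 0) hGpos hid hfpos
      (fun _ => rfl) (fun y => (h.comm y).symm) (fun _ => rfl)
      (by
        intro y hy
        have h1 := hpos y hy
        have h2 : (0 : ℝ) < y := hy
        simp only [G, id]
        rw [abs_of_pos (by linarith), abs_of_pos h2, abs_of_pos h1])
      hsurj y hy
    simp only [id] at this
    rw [sq_abs, abs_of_pos hy,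
      abs_of_pos (show (0 : ℝ) < G f (G f y) from hGpos _ (hGpos y hy))] at this
    linarith
  have hlog2 : ∀ y, 0 < y → (G f (f y)) ^ 2 ≤ G f (G f y) * f (f y) := by
    intro y hy
    have := log_convex (H := G f) (P := f) (Q := id) (D := Set.Ioi 0) hGpos hfpos hid
      (fun y => (h.comm y).symm) (fun _ => rfl) (fun _ => rfl)
      (by
        intro y hy
        have h1 := hpos y hy
        have h2 : (0 : ℝ) < y := hy
        simp only [G, id]
        rw [abs_of_pos (by linarith), abs_of_pos h2, abs_of_pos h1]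
        ring)
      hsurj y hy
    rw [sq_abs, abs_of_pos (show (0 : ℝ) < f (f y) from hpos _ (hpos y hy)),
      abs_of_pos (show (0 : ℝ) < G f (G f y) from hGpos _ (hGpos y hy))] at this
    exact this
  have hfin := const_expand (T := G f) h.G_cont h.G_zero
    (fun y hy => by have := hpos y hy; simp only [G]; linarith) hlog1
    (by
      intro s hs
      obtain ⟨y, hy, hGy⟩ := hsurj s hs
      have hy0 : (0 : ℝ) < y := hy
      have hfy := hpos y hy0
      have hs' : s = y + f y := hGy.symm
      refine ⟨f y, hfy, by linarith, ?_⟩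
      have h2 := hlog2 y hy0
      rw [← h.comm y, hGy] at h2
      have h3 : f s = f y + f (f y) := by rw [← hGy]; exact h.comm y
      have h4 := hpos (f y) hfy
      simp only [G] at h2 ⊢
      nlinarith) hx hy
  simp only [G] at hfin
  nlinarith

theorem linear_of_pos' (h : Sol f) (hpos : ∀ x, 0 < x → 0 < f x) :
    ∃ a : ℝ, 0 < a ∧ ∀ x, 0 ≤ x → f x = a * x := by
  refine ⟨f 1, hpos 1 one_pos, ?_⟩
  intro x hx
  rcases hx.eq_or_lt with h0 | h0
  · rw [← h0, h.zero]; ring
  · have h1 := linear_of_pos h hpos h0 one_pos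
    have h2 := linear_of_pos h hpos one_pos h0
    linarith

/-- a nonnegative solution on the half line is zero there or positive inside. -/
lemma zero_or_pos (h : Sol f) (hnn : ∀ x, 0 ≤ x → 0 ≤ f x) :
    (∀ x, 0 ≤ x → f x = 0) ∨ (∀ x, 0 < x → 0 < f x) := by
  have hGnn : ∀ n x, 0 ≤ x → 0 ≤ (G f)^[n] x := by
    intro n
    induction n with
    | zero => intro x hx; exact hx
    | succ n ih =>
      intro x hx
      rw [iterate_succ_apply]
      exact ih _ (add_nonneg hx (hnn x hx))
  have hinc : ∀ n x, 0 ≤ x → f x ≤ f ((G f)^[n] x) := by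
    intro n
    induction n with
    | zero => intro x _; exact le_rfl
    | succ n ih =>
      intro x hx
      rw [iterate_succ_apply']
      have h1 := ih x hx
      have h2 := hnn _ (hGnn n x hx)
      have h3 := h.comm ((G f)^[n] x)
      rw [h3]
      have h4 := hnn _ h2
      simp only [G]
      linarith
  have hgrow : ∀ n x, 0 ≤ x → x + n * f x ≤ (G f)^[n] x := by
    intro n
    induction n with
    | zero => intro x _; simp
    | succ n ih =>
      intro x hx
      rw [iterate_succ_apply']
      have h1 := ih x hx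
      have h2 := hinc n x hx
      simp only [G] at *
      push_cast
      linarith
  -- positivity propagates to the right
  have hright : ∀ x w, 0 < x → 0 < f x → x < w → 0 < f w := by
    intro x w hx hfx hxw
    by_contra hcon
    have hw0 : f w = 0 := le_antisymm (not_lt.mp hcon) (hnn w (hx.trans hxw).le)
    obtain ⟨n, hn⟩ := exists_nat_gt (w / f x)
    rw [div_lt_iff₀ hfx] at hn
    have h1 := hgrow n x hx.le
    obtain ⟨v, hv0, hvx, hv⟩ := preimage_iter h.G_cont h.G_zero n hx (hx.trans hxw)
      (show w ≤ (G f)^[n] x by linarith)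
    rcases (hnn v hv0.le).eq_or_lt with hf0 | hf0
    · have : (G f)^[n] v = v := by
        apply iterate_fixed
        simp only [G]
        rw [← hf0, add_zero]
      linarith
    · have := hinc n v hv0.le
      rw [hv, hw0] at this
      linarith
  by_cases hall : ∀ x, 0 < x → 0 < f x
  · right; exact hall
  left
  push Not at hall
  obtain ⟨c, hc0, hfc⟩ := hall
  have hfc0 : f c = 0 := le_antisymm hfc (hnn c hc0.le)
  intro x hx
  by_contra hfx
  have hfxpos : 0 < f x := lt_of_le_of_ne (hnn x hx) (Ne.symm hfx)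
  -- zero set below c
  have hzero : ∀ z, 0 ≤ z → z ≤ c → f z = 0 := by
    intro z hz hzc
    rcases hz.eq_or_lt with h0 | h0
    · rw [← h0]; exact h.zero
    rcases hzc.eq_or_lt with h1 | h1
    · rw [h1]; exact hfc0
    by_contra hne
    have := hright z c h0 (lt_of_le_of_ne (hnn z hz) (Ne.symm hne)) h1
    linarith
  have hcx : c < x := by
    by_contra hcon
    push Not at hcon
    exact hfx (hzero x hx hcon)
  -- continuity at x
  have hcont : ContinuousAt f x := h.cont.continuousAt
  rw [Metric.continuousAt_iff] at hcont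
  obtain ⟨δ, hδ, hδ'⟩ := hcont (f x / 2) (by linarith)
  set η := min (min δ (f x / 2)) c with hη
  have hη0 : 0 < η := lt_min (lt_min hδ (by linarith)) hc0
  have hηδ : η ≤ δ := (min_le_left _ _).trans (min_le_left _ _)
  have hηf : η ≤ f x / 2 := (min_le_left _ _).trans (min_le_right _ _)
  have hηc : η ≤ c := min_le_right _ _
  -- a point x1 in (c, x) with 0 < f x1 < η
  have hIVT := intermediate_value_Icc hcx.le h.cont.continuousOn
  have hmem : η / 2 ∈ Set.Icc (f c) (f x) := by
    rw [hfc0]; constructor <;> linarith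
  obtain ⟨x1, hx1, hfx1⟩ := hIVT hmem
  have hff : f (η / 2) = 0 := hzero _ (by linarith) (by linarith)
  have hstep : ∀ n : ℕ, f (x1 + n * (η / 2)) = η / 2 := by
    intro n
    induction n with
    | zero => simpa using hfx1
    | succ n ih =>
      have := h.eq (x1 + n * (η / 2))
      rw [ih, hff, add_zero] at this
      have e : x1 + ((n + 1 : ℕ) : ℝ) * (η / 2) = x1 + n * (η / 2) + η / 2 := by
        push_cast; ring
      rw [e]
      exact this
  -- choose n
  obtain ⟨n, hn1, hn2⟩ : ∃ n : ℕ, x1 + n * (η / 2) ≤ x ∧ x < x1 + (n + 1) * (η / 2) := by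
    have hq : 0 ≤ (x - x1) / (η / 2) := div_nonneg (by linarith [hx1.2]) (by linarith)
    refine ⟨⌊(x - x1) / (η / 2)⌋₊, ?_, ?_⟩
    · have := Nat.floor_le hq
      rw [le_div_iff₀ (by linarith)] at this
      linarith
    · have := Nat.lt_floor_add_one ((x - x1) / (η / 2))
      rw [div_lt_iff₀ (by linarith)] at this
      linarith
  have hd := hδ' (x := x1 + n * (η / 2)) (by
    rw [Real.dist_eq, abs_lt]
    constructor <;> linarith)
  rw [hstep n, Real.dist_eq, abs_lt] at hd
  linarith [hd.1, hd.2]

/-- Part P. -/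
theorem partP (h : Sol f) (hnn : ∀ x, 0 ≤ x → 0 ≤ f x) :
    ∃ a : ℝ, 0 ≤ a ∧ ∀ x, 0 ≤ x → f x = a * x := by
  rcases zero_or_pos h hnn with h0 | h0
  · exact ⟨0, le_rfl, fun x hx => by rw [h0 x hx]; ring⟩
  · obtain ⟨a, ha, hax⟩ := linear_of_pos' h h0
    exact ⟨a, ha.le, hax⟩

end Pool.Agent.N282.FE
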