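import Mathlib
import Pool.Agent.N282.FEc

set_option autoImplicit false

open Function

namespace Pool.Agent.N282.FE

variable {f : ℝ → ℝ}

/-- sign reversing solutions. -/
def SR (f : ℝ → ℝ) : Prop := ∀ x, x ≠ 0 → x * f x < 0

lemma SR.neg_of_pos (hB : SR f) {x : ℝ} (hx : 0 < x) : f x < 0 := by
  have := hB x hx.ne'
  by_contra hcon
  push Not at hcon
  have := mul_nonneg hx.le hcon
  linarith

lemma SR.pos_of_neg (hB : SR f) {x : ℝ} (hx : x < 0) : 0 < f x := by
  have := hB x hx.ne
  by_contra hcon
  push Not at hcon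
  have := mul_nonneg_of_nonpos_of_nonpos hx.le hcon
  linarith

lemma SR.pos_iff (h : Sol f) (hB : SR f) {x : ℝ} : 0 < f x ↔ x < 0 := by
  constructor
  · intro hx
    by_contra hcon
    push Not at hcon
    rcases hcon.eq_or_lt with h0 | h0
    · rw [← h0, h.zero] at hx; exact lt_irrefl _ hx
    · linarith [hB.neg_of_pos h0]
  · exact hB.pos_of_neg

lemma SR.neg_iff (h : Sol f) (hB : SR f) {x : ℝ} : f x < 0 ↔ 0 < x := by
  constructor
  · intro hx
    by_contra hcon
    push Not at hcon
    rcases hcon.eq_or_lt with h0 | h0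
    · rw [h0, h.zero] at hx; exact lt_irrefl _ hx
    · linarith [hB.pos_of_neg h0]
  · exact hB.neg_of_pos

lemma SR.refl (hB : SR f) : SR (fun x => -f (-x)) := by
  intro x hx
  have := hB (-x) (neg_ne_zero.mpr hx)
  linarith

/-! ### contracting case -/

lemma case2_pos (h : Sol f) (hB : SR f) (hlt : ∀ x, x ≠ 0 → |f x| < |x|) {x : ℝ} (hx : 0 < x) :
    f x = f 1 * x := by
  set D : Set ℝ := {x | x ≠ 0} with hD
  have hf0 : ∀ y ∈ D, f y ∈ D := by
    intro y hy h0
    have := hB y hy
    rw [h0] at this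
    simp at this
  have hG0 : ∀ y ∈ D, G f y ∈ D := by
    intro y hy h0
    have h1 := hlt y hy
    have h2 : f y = -y := by simp only [G] at h0; linarith
    rw [h2, abs_neg] at h1
    exact lt_irrefl _ h1
  have hid : ∀ y ∈ D, id y ∈ D := fun y hy => hy
  have habs : ∀ y ∈ D, |id y| = |G f y| + |f y| := by
    intro y hy
    have h1 := hlt y hy
    simp only [G, id]
    rcases lt_or_gt_of_ne (show y ≠ 0 from hy) with h0 | h0
    · have h2 := hB.pos_of_neg h0
      rw [abs_of_pos h2, abs_of_neg h0] at h1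
      rw [abs_of_neg h0, abs_of_pos h2, abs_of_neg (by linarith)]
      ring
    · have h2 := hB.neg_of_pos h0
      rw [abs_of_neg h2, abs_of_pos h0] at h1
      rw [abs_of_pos h0, abs_of_neg h2, abs_of_pos (by linarith)]
      ring
  have hsurj : ∀ y ∈ D, ∃ w ∈ D, id w = y := fun y hy => ⟨y, hy, rfl⟩
  have L1 := log_convex (H := id) (P := G f) (Q := f) (D := D) hid hG0 hf0
    (fun _ => rfl) (fun _ => rfl) (fun y => h.comm y) habs hsurj
  have L2 := log_convex (H := id) (P := f) (Q := G f) (D := D) hid hf0 hG0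
    (fun _ => rfl) (fun _ => rfl) (fun y => (h.comm y).symm)
    (fun y hy => by rw [habs y hy, add_comm]) hsurj
  simp only [id] at L1 L2
  have hGp : ∀ y, 0 < y → 0 < G f y := by
    intro y hy
    have h1 := hlt y hy.ne'
    have h2 := hB.neg_of_pos hy
    rw [abs_of_neg h2, abs_of_pos hy] at h1
    simp only [G]; linarith
  have hlog : ∀ y, 0 < y → (G f y) ^ 2 ≤ y * G f (G f y) := by
    intro y hy
    have := L1 y hy.ne'
    rw [sq_abs, abs_of_pos hy, abs_of_pos (hGp _ (hGp y hy))] at this
    exact this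
  have hmove : ∀ s, 0 < s → ∃ t, 0 < t ∧ t < s ∧ G f t * s ≤ G f s * t := by
    intro s hs
    have h1 := hB.neg_of_pos hs
    have h2 := hB.pos_of_neg h1
    have h3 := hlt s hs.ne'
    have h4 := hlt (f s) h1.ne
    rw [abs_of_neg h1, abs_of_pos hs] at h3
    rw [abs_of_neg h1, abs_of_pos h2] at h4
    refine ⟨f (f s), h2, by linarith, ?_⟩
    have h5 := L2 s hs.ne'
    have h6 := L2 (f s) h1.ne
    have h7 := hB.neg_of_pos h2
    rw [abs_of_neg h1, abs_of_pos hs, abs_of_pos h2] at h5
    rw [abs_of_pos h2, abs_of_neg h1, abs_of_neg h7] at h6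
    set A := -f s
    set t := f (f s)
    set B := -f t
    have hA : 0 < A := by linarith
    have h8 : A * (A * t) ≤ A * (B * s) := by
      calc A * (A * t) = A ^ 2 * t := by ring
        _ ≤ (s * t) * t := mul_le_mul_of_nonneg_right h5 h2.le
        _ = s * t ^ 2 := by ring
        _ ≤ s * (A * B) := mul_le_mul_of_nonneg_left h6 hs.le
        _ = _ := by ring
    have h9 : A * t ≤ B * s := le_of_mul_le_mul_left h8 hA
    simp only [G]
    have e1 : f s = -A := by simp [A]
    have e2 : f t = -B := by simp [B]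
    rw [e1, e2]
    nlinarith
  have key : ∀ x y, 0 < x → 0 < y → G f x * y ≤ G f y * x := fun x y hx hy =>
    const_contract (T := G f) h.G_cont h.G_zero hGp
      (fun y hy => by have := hB.neg_of_pos hy; simp only [G]; linarith) hlog hmove hx hy
  have k1 := key x 1 hx one_pos
  have k2 := key 1 x one_pos hx
  simp only [G] at k1 k2
  nlinarith

theorem case2 (h : Sol f) (hB : SR f) (hlt : ∀ x, x ≠ 0 → |f x| < |x|) :
    ∃ c : ℝ, c < 0 ∧ ∀ x, f x = c * x := by
  have hp : ∀ x, 0 < x → f x = f 1 * x := fun x hx => case2_pos h hB hlt hx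
  have hn : ∀ x, 0 < x → f (-x) = f (-1) * x := by
    intro x hx
    have := case2_pos (f := fun x => -f (-x)) h.neg hB.refl (by
      intro x hx
      have := hlt (-x) (neg_ne_zero.mpr hx)
      rwa [abs_neg] at this ⊢) hx
    have h2 : -f (-x) = -f (-1) * x := this
    linarith
  have hc : f 1 < 0 := hB.neg_of_pos one_pos
  have hc1 : -1 < f 1 := by
    have := hlt 1 one_ne_zero
    rw [abs_of_neg hc, abs_one] at this
    linarith
  have heq := h.eq 1
  rw [hp (1 + f 1) (by linarith)] at heq
  have h2 := hn (-f 1) (by linarith)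
  rw [neg_neg] at h2
  rw [h2] at heq
  have h3 : f (-1) = -f 1 := by
    have : f 1 * (f (-1) + f 1) = 0 := by linarith
    rcases mul_eq_zero.mp this with h0 | h0
    · linarith
    · linarith
  refine ⟨f 1, hc, ?_⟩
  intro x
  rcases lt_trichotomy x 0 with h0 | h0 | h0
  · have := hn (-x) (by linarith)
    rw [neg_neg] at this
    rw [this, h3]; ring
  · rw [h0, h.zero]; ring
  · exact hp x h0

/-! ### expanding case -/

lemma case3_aux (h : Sol f) (hB : SR f) (hgt : ∀ x, x ≠ 0 → |x| < |f x|) :
    (∀ y, y ≠ 0 → |f y| ^ 2 ≤ |f (f y)| * |y|) ∧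
    (∀ y, y ≠ 0 → |f (G f y)| ^ 2 ≤ |f (f y)| * |G f (G f y)|) := by
  set D : Set ℝ := {x | x ≠ 0} with hD
  have hf0 : ∀ y ∈ D, f y ∈ D := by
    intro y hy h0
    have := hB y hy
    rw [h0] at this
    simp at this
  have hG0 : ∀ y ∈ D, G f y ∈ D := by
    intro y hy h0
    have h1 := hgt y hy
    have h2 : f y = -y := by simp only [G] at h0; linarith
    rw [h2, abs_neg] at h1
    exact lt_irrefl _ h1
  have hid : ∀ y ∈ D, id y ∈ D := fun y hy => hy
  have habs : ∀ y ∈ D, |f y| = |id y| + |G f y| := by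
    intro y hy
    have h1 := hgt y hy
    simp only [G, id]
    rcases lt_or_gt_of_ne (show y ≠ 0 from hy) with h0 | h0
    · have h2 := hB.pos_of_neg h0
      rw [abs_of_pos h2, abs_of_neg h0] at h1
      rw [abs_of_neg h0, abs_of_pos h2, abs_of_pos (by linarith)]
      ring
    · have h2 := hB.neg_of_pos h0
      rw [abs_of_neg h2, abs_of_pos h0] at h1
      rw [abs_of_pos h0, abs_of_neg h2, abs_of_neg (by linarith)]
      ring
  have hsurj : ∀ y ∈ D, ∃ w ∈ D, f w = y := by
    intro y hy
    rcases lt_or_gt_of_ne (show y ≠ 0 from hy) with h0 | h0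
    · -- y < 0, look in [0, -y]
      have h1 := hgt (-y) (by linarith [h0] |> fun (hh : 0 < -y) => hh.ne')
      have h2 := hB.neg_of_pos (show 0 < -y by linarith)
      rw [abs_of_neg h2, abs_of_pos (show 0 < -y by linarith)] at h1
      have := intermediate_value_Icc' (show (0 : ℝ) ≤ -y by linarith) h.cont.continuousOn
      obtain ⟨w, hw, hwy⟩ := this (show y ∈ Set.Icc (f (-y)) (f 0) by
        rw [h.zero]; constructor <;> linarith)
      refine ⟨w, ?_, hwy⟩
      intro hw0
      rw [hw0, h.zero] at hwy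
      linarith
    · have h1 := hgt (-y) (by linarith [h0] |> fun (hh : -y < 0) => hh.ne)
      have h2 := hB.pos_of_neg (show -y < 0 by linarith)
      rw [abs_of_pos h2, abs_of_neg (show -y < 0 by linarith)] at h1
      have := intermediate_value_Icc' (show -y ≤ (0 : ℝ) by linarith) h.cont.continuousOn
      obtain ⟨w, hw, hwy⟩ := this (show y ∈ Set.Icc (f 0) (f (-y)) by
        rw [h.zero]; constructor <;> linarith)
      refine ⟨w, ?_, hwy⟩
      intro hw0
      rw [hw0, h.zero] at hwy
      linarith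
  have L1 := log_convex (H := f) (P := id) (Q := G f) (D := D) hf0 hid hG0
    (fun _ => rfl) (fun y => h.comm y) (fun _ => rfl) habs hsurj
  have L3 := log_convex (H := f) (P := G f) (Q := id) (D := D) hf0 hG0 hid
    (fun y => h.comm y) (fun _ => rfl) (fun _ => rfl)
    (fun y hy => by rw [habs y hy, add_comm]) hsurj
  simp only [id] at L1 L3
  exact ⟨L1, L3⟩

lemma case3_pos (h : Sol f) (hB : SR f) (hgt : ∀ x, x ≠ 0 → |x| < |f x|) {x : ℝ} (hx : 0 < x) :
    f (f x) = f (f 1) * x := by
  obtain ⟨L1, L3⟩ := case3_aux h hB hgt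
  set T : ℝ → ℝ := fun x => f (f x) with hT
  have hTcont : Continuous T := h.cont.comp h.cont
  have hT0 : T 0 = 0 := by simp [hT, h.zero]
  have hTpos : ∀ y, 0 < y → 0 < T y := fun y hy => hB.pos_of_neg (hB.neg_of_pos hy)
  have hTgt : ∀ y, 0 < y → y < T y := by
    intro y hy
    have h1 := hB.neg_of_pos hy
    have h2 := hTpos y hy
    have h3 := hgt y hy.ne'
    have h4 := hgt (f y) h1.ne
    have h5 : |f (f y)| = T y := abs_of_pos h2
    rw [h5] at h4
    rw [abs_of_pos hy] at h3
    linarith
  have hlog : ∀ y, 0 < y → (T y) ^ 2 ≤ y * T (T y) := by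
    intro y hy
    have h1 := hB.neg_of_pos hy
    have h2 := hTpos y hy
    have h3 := hB.neg_of_pos h2
    have h4 := hTpos _ h2
    have l1 := L1 y hy.ne'
    have l2 := L1 (f y) h1.ne
    have l3 := L1 (T y) h2.ne'
    have e2 : |f (f y)| = T y := abs_of_pos h2
    have e4 : |f (f (T y))| = T (T y) := abs_of_pos h4
    rw [e2, abs_of_pos hy] at l1
    rw [e2] at l2
    rw [e4, abs_of_pos h2] at l3
    have e3 : |f (f (f y))| = |f (T y)| := rfl
    rw [e3] at l2
    set a1 := |f y|
    set a3 := |f (T y)|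
    have ha1 : 0 ≤ a1 := abs_nonneg _
    have ha3 : 0 ≤ a3 := abs_nonneg _
    have h5 : (T y) ^ 2 * (T y) ^ 2 ≤ (T y) ^ 2 * (y * T (T y)) := by
      calc (T y) ^ 2 * (T y) ^ 2 ≤ (a3 * a1) * (a3 * a1) := by
            apply mul_le_mul l2 l2 (by positivity) (by positivity)
        _ = a3 ^ 2 * a1 ^ 2 := by ring
        _ ≤ (T (T y) * T y) * (T y * y) := by
            apply mul_le_mul l3 l1 (by positivity) (by positivity)
        _ = _ := by ring
    exact le_of_mul_le_mul_left h5 (by positivity)
  have hmove : ∀ s, 0 < s → ∃ t, 0 < t ∧ t < s ∧ T s * t ≤ T t * s := by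
    intro s hs
    -- y < 0 with f y = s
    have g1 := hgt (-s) (by linarith [hs] |> fun (hh : -s < 0) => hh.ne)
    have g2 := hB.pos_of_neg (show -s < 0 by linarith)
    rw [abs_of_pos g2, abs_of_neg (show -s < 0 by linarith)] at g1
    have hI := intermediate_value_Icc' (show -s ≤ (0 : ℝ) by linarith) h.cont.continuousOn
    obtain ⟨y, hy, hys⟩ := hI (show s ∈ Set.Icc (f 0) (f (-s)) by
      rw [h.zero]; constructor <;> linarith)
    have hy0 : y < 0 := by
      rcases hy.2.eq_or_lt with h0 | h0
      · rw [h0, h.zero] at hys; linarith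
      · exact h0
    have hys' : -s < y := by
      rcases hy.1.eq_or_lt with h0 | h0
      · exfalso
        rw [← h0] at hys
        linarith
      · exact h0
    set t := G f y with ht
    have htv : t = y + s := by rw [ht, G, hys]
    have ht0 : 0 < t := by linarith
    have hts : t < s := by linarith
    refine ⟨t, ht0, hts, ?_⟩
    have hft : f t = s + f s := by rw [ht, h.comm y, hys]; rfl
    have hfs := hB.neg_of_pos hs
    have hft0 := hB.neg_of_pos ht0
    have l1 := L3 y hy0.ne
    rw [← ht, hys] at l1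
    have hGt : G f t < 0 := by
      have := hgt t ht0.ne'
      rw [abs_of_pos ht0, abs_of_neg hft0] at this
      simp only [G]; linarith
    rw [abs_of_neg hft0, abs_of_neg hfs, abs_of_neg hGt] at l1
    have l2 := L3 s hs.ne'
    have hGs : G f s = f t := by rw [hft]; rfl
    rw [hGs] at l2
    have hffs := hTpos s hs
    have hfft := hTpos t ht0
    have e1 : |f (f s)| = T s := abs_of_pos hffs
    have e2 : |f (f t)| = T t := abs_of_pos hfft
    have hGft : 0 < G f (f t) := by
      have := hgt (f t) hft0.ne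
      rw [e2, abs_of_neg hft0] at this
      simp only [G]
      have : T t = f (f t) := rfl
      linarith
    rw [e1, e2, abs_of_pos hGft] at l2
    have hTt : T t = f s + T s := by
      show f (f t) = f s + f (f s)
      rw [← hGs, h.comm s]; rfl
    have hGft' : G f (f t) = f t + T t := rfl
    rw [hGft'] at l2
    have hGt' : G f t = t + f t := rfl
    rw [hGt'] at l1
    set A := -f s with hA
    set B := -f t with hBdef
    set C := T s with hC
    set Dd := T t with hDd
    have eA : f s = -A := by simp [A]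
    have eB : f t = -B := by simp [B]
    have hApos : 0 < A := by linarith
    have hBpos : 0 < B := by linarith
    have r1 : B = A - s := by linarith
    have r2 : Dd = C - A := by linarith
    -- l1 : B^2 ≤ A * (B - t)
    have m1 : A * t ≤ B * s := by
      rw [eB] at l1
      nlinarith
    have m2 : C * B ≤ Dd * A := by
      rw [eB] at l2
      nlinarith
    have m3 : (A * B) * (C * t) ≤ (A * B) * (Dd * s) := by
      calc (A * B) * (C * t) = (C * B) * (A * t) := by ring
        _ ≤ (Dd * A) * (B * s) := by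
            apply mul_le_mul m2 m1 (by positivity) (by positivity)
        _ = _ := by ring
    exact le_of_mul_le_mul_left m3 (by positivity)
  have k1 := const_expand (T := T) hTcont hT0 hTgt hlog hmove hx one_pos
  have k2 := const_expand (T := T) hTcont hT0 hTgt hlog hmove one_pos hx
  have : T x = T 1 * x := by linarith
  exact this

theorem case3 (h : Sol f) (hB : SR f) (hgt : ∀ x, x ≠ 0 → |x| < |f x|) :
    ∃ c : ℝ, c < 0 ∧ ∀ x, f x = c * x := by
  have hp : ∀ x, 0 < x → f (f x) = f (f 1) * x := fun x hx => case3_pos h hB hgt hx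
  have hn : ∀ x, x < 0 → f (f x) = -f (f (-1)) * x := by
    intro x hx
    have := case3_pos (f := fun x => -f (-x)) h.neg hB.refl (by
      intro x hx
      have := hgt (-x) (neg_ne_zero.mpr hx)
      rwa [abs_neg, ← abs_neg (f (-x))] at this) (show 0 < -x by linarith)
    simp only [neg_neg] at this
    linarith
  obtain ⟨L1, -⟩ := case3_aux h hB hgt
  set a := f (f 1) with ha
  set b := -f (f (-1)) with hb
  have ha0 : 0 < a := hB.pos_of_neg (hB.neg_of_pos one_pos)
  have hb0 : 0 < b := by
    have := hB.neg_of_pos (hB.pos_of_neg (show (-1 : ℝ) < 0 by norm_num))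
    linarith
  -- relation between a and b at a positive point
  have hrel : ∀ x, 0 < x → a = b ∧ (f x) ^ 2 = a * x ^ 2 := by
    intro x hx
    have h1 := hB.neg_of_pos hx
    have l1 := L1 x hx.ne'
    have l2 := L1 (f x) h1.ne
    have hax : 0 < a * x := by positivity
    have l3 := L1 (a * x) hax.ne'
    have e1 : f (f x) = a * x := hp x hx
    have e2 : f (f (f x)) = b * f x := hn (f x) h1
    have e3 : f (a * x) = b * f x := by rw [← e1]; exact e2
    have e4 : f (f (a * x)) = a * (a * x) := hp (a * x) hax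
    rw [e1, sq_abs, abs_of_pos hax, abs_of_pos hx] at l1
    rw [e2, e1, sq_abs, abs_mul, abs_of_pos hb0] at l2
    rw [e4, e3, sq_abs, abs_of_pos hax, abs_of_pos (show 0 < a * (a * x) by positivity)] at l3
    have e5 : b * |f x| * |f x| = b * (f x) ^ 2 := by rw [mul_assoc, ← sq, sq_abs]
    rw [e5] at l2
    have hx2 : 0 < x ^ 2 := by positivity
    have hF : 0 < (f x) ^ 2 := by
      have := h1.ne
      positivity
    -- l1 : (f x)^2 ≤ a x^2 ; l2 : a^2 x^2 ≤ b (f x)^2 ; l3 : b^2 (f x)^2 ≤ a^3 x^2
    have i1 : a ≤ b := by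
      have : (a * x ^ 2) * a ≤ (a * x ^ 2) * b := by nlinarith
      exact le_of_mul_le_mul_left this (by positivity)
    have i2 : b ≤ a := by
      have : (a ^ 2 * x ^ 2) * b ≤ (a ^ 2 * x ^ 2) * a := by nlinarith
      exact le_of_mul_le_mul_left this (by positivity)
    have hab : a = b := le_antisymm i1 i2
    refine ⟨hab, le_antisymm (by nlinarith) ?_⟩
    rw [← hab] at l2
    have : a * (a * x ^ 2) ≤ a * (f x) ^ 2 := by nlinarith
    exact le_of_mul_le_mul_left this ha0
  have hab : a = b := (hrel 1 one_pos).1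
  refine ⟨-Real.sqrt a, by have := Real.sqrt_pos.mpr ha0; linarith, ?_⟩
  have hpos : ∀ x, 0 < x → f x = -Real.sqrt a * x := by
    intro x hx
    have h1 := hB.neg_of_pos hx
    have h2 := (hrel x hx).2
    have h3 : (-f x) ^ 2 = (Real.sqrt a * x) ^ 2 := by
      rw [mul_pow, Real.sq_sqrt ha0.le, neg_sq, h2]
    have h4 := (pow_left_inj₀ (by linarith : 0 ≤ -f x) (by positivity) two_ne_zero).mp h3
    linarith
  intro x
  rcases lt_trichotomy x 0 with h0 | h0 | h0
  · -- f (f x) = a x, f x > 0
    have h1 := hB.pos_of_neg h0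
    have h2 := hpos (f x) h1
    rw [hn x h0, ← hab] at h2
    have h3 : Real.sqrt a * f x = Real.sqrt a * (-Real.sqrt a * x) := by
      have : Real.sqrt a * Real.sqrt a = a := Real.mul_self_sqrt ha0.le
      linear_combination h2 + x * this
    exact mul_left_cancel₀ (Real.sqrt_pos.mpr ha0).ne' h3
  · rw [h0, h.zero]; ring
  · exact hpos x h0

end Pool.Agent.N282.FE
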