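import Mathlib
import Pool.Agent.N282.FEd

set_option autoImplicit false

open Function

namespace Pool.Agent.N282.FE

variable {f : ℝ → ℝ}

/-! ### trichotomy for sign reversing solutions -/

/-- the second iterate. -/
def T2 (f : ℝ → ℝ) (x : ℝ) : ℝ := f (f x)

lemma T2_cont (h : Sol f) : Continuous (T2 f) := h.cont.comp h.cont

lemma T2_zero (h : Sol f) : T2 f 0 = 0 := by simp [T2, h.zero]

lemma T2_pos_iff (h : Sol f) (hB : SR f) {x : ℝ} : 0 < T2 f x ↔ 0 < x := by
  unfold T2
  rw [hB.pos_iff h, hB.neg_iff h]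

lemma T2_neg_iff (h : Sol f) (hB : SR f) {x : ℝ} : T2 f x < 0 ↔ x < 0 := by
  unfold T2
  rw [hB.neg_iff h, hB.pos_iff h]

lemma T2i_pos_iff (h : Sol f) (hB : SR f) (n : ℕ) {x : ℝ} : 0 < (T2 f)^[n] x ↔ 0 < x := by
  induction n with
  | zero => rfl
  | succ n ih => rw [iterate_succ_apply', T2_pos_iff h hB, ih]

lemma T2i_neg_iff (h : Sol f) (hB : SR f) (n : ℕ) {x : ℝ} : (T2 f)^[n] x < 0 ↔ x < 0 := by
  induction n with
  | zero => rfl
  | succ n ih => rw [iterate_succ_apply', T2_neg_iff h hB, ih]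

lemma G_T2 (h : Sol f) (x : ℝ) : G f (T2 f x) = T2 f (G f x) := by
  unfold T2
  rw [h.comm, h.comm]

lemma G_T2i (h : Sol f) (n : ℕ) (x : ℝ) : G f ((T2 f)^[n] x) = (T2 f)^[n] (G f x) := by
  induction n with
  | zero => rfl
  | succ n ih => rw [iterate_succ_apply', iterate_succ_apply', G_T2 h, ih]

lemma T2_eq (h : Sol f) (w : ℝ) : T2 f w = w - G f w + f (G f w) := by
  rw [h.comm]
  simp only [T2, G]
  ring

lemma T2_le (h : Sol f) (hB : SR f) {w : ℝ} (hw : 0 ≤ G f w) : T2 f w ≤ w - G f w := by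
  rw [T2_eq h]
  rcases hw.eq_or_lt with h0 | h0
  · rw [← h0, h.zero]; linarith
  · have := hB.neg_of_pos h0
    linarith

lemma T2_ge (h : Sol f) (hB : SR f) {w : ℝ} (hw : G f w ≤ 0) : w - G f w ≤ T2 f w := by
  rw [T2_eq h]
  rcases hw.eq_or_lt with h0 | h0
  · rw [h0, h.zero]; linarith
  · have := hB.pos_of_neg h0
    linarith

lemma nat_contra {x d : ℝ} (hd : 0 < d) (H : ∀ n : ℕ, n * d ≤ x) : False := by
  obtain ⟨n, hn⟩ := exists_nat_gt (x / d)
  rw [div_lt_iff₀ hd] at hn
  linarith [H n]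

/-- if `G w ≤ 0` the orbit of `w` under `T2` is nondecreasing. -/
lemma T2i_mono (h : Sol f) (hB : SR f) {w : ℝ} (hw : G f w ≤ 0) {j n : ℕ} (hjn : j ≤ n) :
    (T2 f)^[j] w ≤ (T2 f)^[n] w := by
  induction n, hjn using Nat.le_induction with
  | base => exact le_rfl
  | succ n _ ih =>
    rw [iterate_succ_apply']
    have h1 : G f ((T2 f)^[n] w) ≤ 0 := by
      rw [G_T2i h]
      by_contra hcon
      push Not at hcon
      rw [T2i_pos_iff h hB] at hcon
      linarith
    have := T2_ge h hB h1
    linarith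

lemma T2i_anti (h : Sol f) (hB : SR f) {w : ℝ} (hw : 0 ≤ G f w) {j n : ℕ} (hjn : j ≤ n) :
    (T2 f)^[n] w ≤ (T2 f)^[j] w := by
  induction n, hjn using Nat.le_induction with
  | base => exact le_rfl
  | succ n _ ih =>
    rw [iterate_succ_apply']
    have h1 : 0 ≤ G f ((T2 f)^[n] w) := by
      rw [G_T2i h]
      by_contra hcon
      push Not at hcon
      rw [T2i_neg_iff h hB] at hcon
      linarith
    have := T2_le h hB h1
    linarith

/-- descent: if the increments `G (T2^j v)` are at least `d ≥ 0` for `j < n`. -/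
lemma descent (h : Sol f) (hB : SR f) {v d : ℝ} (hd : 0 ≤ d) (n : ℕ)
    (H : ∀ j, j < n → d ≤ G f ((T2 f)^[j] v)) : (T2 f)^[n] v ≤ v - n * d := by
  induction n with
  | zero => simp
  | succ n ih =>
    have h1 := ih (fun j hj => H j (by omega))
    have h2 := H n (by omega)
    have h3 := T2_le h hB (hd.trans h2)
    rw [iterate_succ_apply']
    push_cast
    linarith

lemma ascent (h : Sol f) (hB : SR f) {v d : ℝ} (hd : 0 ≤ d) (n : ℕ)
    (H : ∀ j, j < n → G f ((T2 f)^[j] v) ≤ -d) : v + n * d ≤ (T2 f)^[n] v := by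
  induction n with
  | zero => simp
  | succ n ih =>
    have h1 := ih (fun j hj => H j (by omega))
    have h2 := H n (by omega)
    have h3 := T2_ge h hB (h2.trans (by linarith))
    rw [iterate_succ_apply']
    push_cast
    linarith

lemma claim_less (h : Sol f) (hB : SR f) {x : ℝ} (hx : 0 < x) (hG : 0 < G f x) :
    0 < G f (G f x) := by
  by_contra hcon
  push Not at hcon
  refine nat_contra (x := x) hG (fun n => ?_)
  have h1 : (T2 f)^[n] x ≤ x - n * G f x := by
    apply descent h hB hG.le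
    intro j _
    rw [G_T2i h]
    exact T2i_mono h hB hcon (Nat.zero_le j)
  have h2 := (T2i_pos_iff h hB n).mpr hx
  linarith

lemma claim_more (h : Sol f) (hB : SR f) {x : ℝ} (hx : 0 < x) (hG : G f x < 0) :
    0 < G f (G f x) := by
  by_contra hcon
  push Not at hcon
  refine nat_contra (x := x) (neg_pos.mpr hG) (fun n => ?_)
  -- preimage
  have h1 : x ≤ (T2 f)^[n] x := by
    have := T2i_mono h hB hG.le (Nat.zero_le n)
    exact this
  obtain ⟨v, hv0, _, hv⟩ := preimage_iter (T2_cont h) (T2_zero h) n hx hx h1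
  have hGv : G f ((T2 f)^[n] v) = (T2 f)^[n] (G f v) := G_T2i h n v
  rw [hv] at hGv
  have hGGv : G f (G f v) ≤ 0 := by
    by_contra hc
    push Not at hc
    have := (T2i_pos_iff h hB n).mpr hc
    rw [← G_T2i h n (G f v), ← hGv] at this
    linarith
  have h2 : v + n * (-G f x) ≤ (T2 f)^[n] v := by
    apply ascent h hB (by linarith)
    intro j hj
    rw [G_T2i h, neg_neg, hGv]
    exact T2i_mono h hB hGGv hj.le
  rw [hv] at h2
  linarith

lemma step1 (h : Sol f) (hB : SR f) {x e : ℝ} (hx : 0 < x) (hG : 0 < G f x) (hxe : x < e)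
    (he : G f e = 0) : False := by
  have hTe : ∀ n, (T2 f)^[n] e = e := by
    intro n
    apply iterate_fixed
    rw [T2_eq h, he, h.zero]; ring
  refine nat_contra (x := e) hG (fun n => ?_)
  obtain ⟨v, hv0, hve, hv⟩ := preimage_iter (T2_cont h) (T2_zero h) n (hx.trans hxe) hx
    (by rw [hTe]; exact hxe.le)
  have hGv : G f ((T2 f)^[n] v) = (T2 f)^[n] (G f v) := G_T2i h n v
  rw [hv] at hGv
  have hGv0 : 0 < G f v := by
    rw [← T2i_pos_iff h hB n, ← hGv]; exact hG
  have hGGv := claim_less h hB hv0 hGv0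
  have h2 : (T2 f)^[n] v ≤ v - n * G f x := by
    apply descent h hB hG.le
    intro j hj
    rw [G_T2i h, hGv]
    exact T2i_anti h hB hGGv.le hj.le
  rw [hv] at h2
  linarith

lemma step2 (h : Sol f) (hB : SR f) {x e : ℝ} (hx : 0 < x) (hG : 0 < G f x) (he0 : 0 < e)
    (he : G f e = 0) : False := by
  by_cases hex : ∃ j, (T2 f)^[j] (G f x) < e
  · obtain ⟨j, hj⟩ := hex
    refine step1 h hB (x := (T2 f)^[j] (G f x)) ((T2i_pos_iff h hB j).mpr hG) ?_ hj he
    rw [G_T2i h, T2i_pos_iff h hB]
    exact claim_less h hB hx hG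
  · push Not at hex
    refine nat_contra (x := x) he0 (fun n => ?_)
    have h1 : (T2 f)^[n] x ≤ x - n * e := by
      apply descent h hB he0.le
      intro j _
      rw [G_T2i h]
      exact hex j
    have h2 := (T2i_pos_iff h hB n).mpr hx
    linarith

lemma step3 (h : Sol f) (hB : SR f) {x e : ℝ} (hx : 0 < x) (hG : G f x < 0) (hxe : x < e)
    (he : G f e = 0) : False := by
  have hc := claim_more h hB hx hG
  have hup : ∀ n : ℕ, x + n * (-G f x) ≤ (T2 f)^[n] x := by
    intro n
    apply ascent h hB (by linarith)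
    intro j _
    rw [G_T2i h, neg_neg]
    exact T2i_anti h hB hc.le (Nat.zero_le j)
  obtain ⟨n, hn⟩ := exists_nat_gt (e / (-G f x))
  rw [div_lt_iff₀ (neg_pos.mpr hG)] at hn
  have h1 : e ≤ (T2 f)^[n] x := by linarith [hup n]
  obtain ⟨v, hv0, hvx, hv⟩ := preimage_iter (T2_cont h) (T2_zero h) n hx (hx.trans hxe) h1
  have hGv : G f ((T2 f)^[n] v) = (T2 f)^[n] (G f v) := G_T2i h n v
  rw [hv, he] at hGv
  have hGv0 : G f v = 0 := by
    rcases lt_trichotomy (G f v) 0 with h2 | h2 | h2
    · have := (T2i_neg_iff h hB n).mpr h2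
      linarith
    · exact h2
    · have := (T2i_pos_iff h hB n).mpr h2
      linarith
  have : (T2 f)^[n] v = v := by
    apply iterate_fixed
    rw [T2_eq h, hGv0, h.zero]; ring
  linarith

lemma step4 (h : Sol f) (hB : SR f) {x e : ℝ} (hx : 0 < x) (hG : G f x < 0) (he0 : 0 < e)
    (he : G f e = 0) : False := by
  have hc := claim_more h hB hx hG
  obtain ⟨n, hn⟩ := exists_nat_gt (x / e)
  rw [div_lt_iff₀ he0] at hn
  have h1 : x ≤ (T2 f)^[n] x := by
    have := T2i_mono h hB hG.le (Nat.zero_le n)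
    exact this
  obtain ⟨v, hv0, _, hv⟩ := preimage_iter (T2_cont h) (T2_zero h) n hx hx h1
  have hGv : G f ((T2 f)^[n] v) = (T2 f)^[n] (G f v) := G_T2i h n v
  rw [hv] at hGv
  have hGv0 : G f v < 0 := by
    rw [← T2i_neg_iff h hB n, ← hGv]; exact hG
  have hGGv : 0 < G f (G f v) := by
    rw [← T2i_pos_iff h hB n, ← G_T2i h n (G f v), ← hGv]; exact hc
  have h2 : v + n * (-G f v) ≤ (T2 f)^[n] v := by
    apply ascent h hB (by linarith)
    intro j _
    rw [G_T2i h, neg_neg]
    exact T2i_anti h hB hGGv.le (Nat.zero_le j)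
  rw [hv] at h2
  have hnpos : (0 : ℝ) < n := by
    rcases Nat.eq_zero_or_pos n with h0 | h0
    · rw [h0] at hn; simp at hn; linarith
    · exact_mod_cast h0
  have hye : -G f v < e := by
    by_contra hcon
    push Not at hcon
    have : (n : ℝ) * e ≤ n * (-G f v) := mul_le_mul_of_nonneg_left hcon hnpos.le
    linarith
  set y := -G f v with hy
  have hy0 : 0 < y := by linarith
  rcases lt_trichotomy (G f y) 0 with h3 | h3 | h3
  · exact step3 h hB hy0 h3 hye he
  · -- f y = -y = G f v ; then G f (f y) = f (G f y) = 0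
    have h4 : f y = G f v := by simp only [G] at h3; linarith
    have h5 : G f (f y) = 0 := by rw [← h.comm, h3, h.zero]
    rw [h4] at h5
    linarith
  · exact step2 h hB hy0 h3 he0 he

lemma pos_side_zero (h : Sol f) (hB : SR f) {e : ℝ} (he0 : 0 < e) (he : G f e = 0) :
    ∀ x, f x = -x := by
  have hp : ∀ x, 0 < x → G f x = 0 := by
    intro x hx
    rcases lt_trichotomy (G f x) 0 with h0 | h0 | h0
    · exact (step4 h hB hx h0 he0 he).elim
    · exact h0
    · exact (step2 h hB hx h0 he0 he).elim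
  intro x
  rcases lt_trichotomy x 0 with h0 | h0 | h0
  · have h1 := hB.pos_of_neg h0
    have h2 := hp _ h1
    rw [← h.comm] at h2
    have h3 : G f x = 0 := by
      rcases lt_trichotomy (G f x) 0 with h4 | h4 | h4
      · linarith [hB.pos_of_neg h4]
      · exact h4
      · linarith [hB.neg_of_pos h4]
    simp only [G] at h3; linarith
  · rw [h0, h.zero]; ring
  · have := hp x h0
    simp only [G] at this; linarith

theorem linear_of_SR (h : Sol f) (hB : SR f) : ∃ c : ℝ, c < 0 ∧ ∀ x, f x = c * x := by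
  by_cases hE : ∃ e, e ≠ 0 ∧ G f e = 0
  · obtain ⟨e, he0, he⟩ := hE
    refine ⟨-1, by norm_num, fun x => ?_⟩
    rcases lt_or_gt_of_ne he0 with h0 | h0
    · have h1 := hB.pos_of_neg h0
      have h2 : G f (f e) = 0 := by rw [← h.comm, he, h.zero]
      rw [pos_side_zero h hB h1 h2 x]; ring
    · rw [pos_side_zero h hB h0 he x]; ring
  · push Not at hE
    -- constant sign on the positive axis
    by_cases hs : ∃ x, 0 < x ∧ 0 < G f x
    · obtain ⟨x0, hx0, hGx0⟩ := hs
      have hp : ∀ x, 0 < x → 0 < G f x := by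
        intro x hx
        by_contra hcon
        push Not at hcon
        rcases le_total x x0 with hle | hle
        · have := intermediate_value_Icc hle h.G_cont.continuousOn
          obtain ⟨z, hz, hz0⟩ := this ⟨hcon, hGx0.le⟩
          exact hE z (by linarith [hz.1] |> fun (hh : 0 < z) => hh.ne') hz0
        · have := intermediate_value_Icc' hle h.G_cont.continuousOn
          obtain ⟨z, hz, hz0⟩ := this ⟨hcon, hGx0.le⟩
          exact hE z (by linarith [hz.1] |> fun (hh : 0 < z) => hh.ne') hz0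
      apply case2 h hB
      intro x hx
      rcases lt_or_gt_of_ne hx with h0 | h0
      · have h1 := hB.pos_of_neg h0
        have h2 := hp _ h1
        rw [← h.comm, hB.pos_iff h] at h2
        rw [abs_of_pos h1, abs_of_neg h0]
        simp only [G] at h2; linarith
      · have h1 := hB.neg_of_pos h0
        have h2 := hp _ h0
        rw [abs_of_neg h1, abs_of_pos h0]
        simp only [G] at h2; linarith
    · push Not at hs
      have hp : ∀ x, 0 < x → G f x < 0 := fun x hx => lt_of_le_of_ne (hs x hx) (hE x hx.ne')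
      apply case3 h hB
      intro x hx
      rcases lt_or_gt_of_ne hx with h0 | h0
      · have h1 := hB.pos_of_neg h0
        have h2 := hp _ h1
        rw [← h.comm, hB.neg_iff h] at h2
        rw [abs_of_pos h1, abs_of_neg h0]
        simp only [G] at h2; linarith
      · have h1 := hB.neg_of_pos h0
        have h2 := hp _ h0
        rw [abs_of_neg h1, abs_of_pos h0]
        simp only [G] at h2; linarith

end Pool.Agent.N282.FE
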