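import Mathlib
import Pool.Agent.N282.FEe

set_option autoImplicit false

open Function

namespace Pool.Agent.N282.FE

variable {f : ℝ → ℝ}

lemma exists_neg_side (h : Sol f) {p : ℝ} (hp : 0 < p) (hfp : f p < 0) :
    ∃ q, q < 0 ∧ 0 < f q := by
  by_contra hne
  push Not at hne
  obtain ⟨b, hb0, hb⟩ := partP h.neg (by
    intro x hx
    rcases hx.eq_or_lt with h0 | h0
    · simp [← h0, h.zero]
    · have := hne (-x) (by linarith)
      show 0 ≤ -f (-x)
      linarith)
  have hb' : ∀ z, z ≤ 0 → f z = b * z := by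
    intro z hz
    have := hb (-z) (by linarith)
    simp only [neg_neg] at this
    linarith
  have hstep : ∀ x, 0 < x → f x < 0 → 0 < G f x ∧ f (G f x) ≤ f x := by
    intro x hx hfx
    have h1 : f (G f x) = f x + b * f x := by
      rw [h.comm, G, hb' _ hfx.le]
    have h2 : b * f x ≤ 0 := mul_nonpos_of_nonneg_of_nonpos hb0 hfx.le
    refine ⟨?_, by linarith⟩
    by_contra hcon
    push Not at hcon
    have h3 := hb' _ hcon
    rw [h1] at h3
    simp only [G] at h3
    have h4 : 0 ≤ b * x := mul_nonneg hb0 hx.le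
    nlinarith
  have horb : ∀ n : ℕ, 0 < (G f)^[n] p ∧ f ((G f)^[n] p) ≤ f p ∧
      (G f)^[n] p ≤ p - n * (-f p) := by
    intro n
    induction n with
    | zero => simp [hp]
    | succ n ih =>
      obtain ⟨i1, i2, i3⟩ := ih
      obtain ⟨j1, j2⟩ := hstep _ i1 (by linarith)
      rw [iterate_succ_apply']
      refine ⟨j1, j2.trans i2, ?_⟩
      have : G f ((G f)^[n] p) = (G f)^[n] p + f ((G f)^[n] p) := rfl
      rw [this]
      push_cast
      linarith
  exact nat_contra (x := p) (neg_pos.mpr hfp) (fun n => by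
    obtain ⟨i1, _, i3⟩ := horb n
    linarith)

lemma no_accum (h : Sol f) {p q : ℝ} (hp : 0 < p) (hfp : f p < 0) (hq : q < 0)
    (hfq : 0 < f q) : ∃ δ > 0, ∀ z, 0 < z → z < δ → f z ≠ 0 := by
  have hcont : ContinuousAt f p := h.cont.continuousAt
  rw [Metric.continuousAt_iff] at hcont
  obtain ⟨η, hη, hη'⟩ := hcont (-f p) (by linarith)
  refine ⟨min η (f q), lt_min hη hfq, ?_⟩
  intro z hz hzm hfz
  have hzη : z < η := hzm.trans_le (min_le_left _ _)
  have hzq : z < f q := hzm.trans_le (min_le_right _ _)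
  have hI := intermediate_value_Icc' hq.le h.cont.continuousOn
  obtain ⟨w, hw, hwz⟩ := hI (show z ∈ Set.Icc (f 0) (f q) by
    rw [h.zero]; exact ⟨hz.le, hzq.le⟩)
  have hstep : ∀ n : ℕ, f (w + n * z) = z := by
    intro n
    induction n with
    | zero => simpa using hwz
    | succ n ih =>
      have := h.eq (w + n * z)
      rw [ih, hfz, add_zero] at this
      have e : w + ((n + 1 : ℕ) : ℝ) * z = w + n * z + z := by push_cast; ring
      rw [e]
      exact this
  have hw0 : w ≤ 0 := hw.2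
  have hpos : 0 ≤ (p - w) / z := div_nonneg (by linarith) hz.le
  have f1 := Nat.floor_le hpos
  have f2 := Nat.lt_floor_add_one ((p - w) / z)
  rw [le_div_iff₀ hz] at f1
  rw [div_lt_iff₀ hz] at f2
  have hd := hη' (x := w + ((⌊(p - w) / z⌋₊ : ℕ) : ℝ) * z) (by
    rw [Real.dist_eq, abs_lt]
    constructor <;> linarith)
  rw [hstep, Real.dist_eq, abs_lt] at hd
  linarith [hd.2]

/-- least positive zero. -/
lemma least_zero (h : Sol f) {δ z : ℝ} (hδ : 0 < δ) (hno : ∀ t, 0 < t → t < δ → f t ≠ 0)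
    (hz : 0 < z) (hfz : f z = 0) :
    ∃ z1, 0 < z1 ∧ f z1 = 0 ∧ ∀ t, 0 < t → t < z1 → f t ≠ 0 := by
  have hδz : δ ≤ z := by
    by_contra hcon
    push Not at hcon
    exact hno z hz hcon hfz
  let K : Set ℝ := {t | t ∈ Set.Icc δ z ∧ f t = 0}
  have hK : IsCompact K := by
    apply IsCompact.inter_right isCompact_Icc
    exact isClosed_eq h.cont continuous_const
  obtain ⟨z1, hz1⟩ := hK.exists_isLeast ⟨z, ⟨⟨hδz, le_rfl⟩, hfz⟩⟩
  refine ⟨z1, hδ.trans_le hz1.1.1.1, hz1.1.2, ?_⟩
  intro t ht htz1 hft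
  rcases lt_or_ge t δ with h1 | h1
  · exact hno t ht h1 hft
  · have : t ∈ K := ⟨⟨h1, htz1.le.trans hz1.1.1.2⟩, hft⟩
    exact absurd (hz1.2 this) (not_le.mpr htz1)

lemma sign_pos {a b t0 : ℝ} (hc : Continuous f) (hne : ∀ t, a < t → t < b → f t ≠ 0)
    (h0 : a < t0) (h1 : t0 < b) (hf0 : 0 < f t0) : ∀ t, a < t → t < b → 0 < f t := by
  intro t ht htb
  by_contra hcon
  push Not at hcon
  rcases le_total t t0 with hle | hle
  · obtain ⟨z, hz, hz0⟩ := intermediate_value_Icc hle hc.continuousOn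
      (show (0 : ℝ) ∈ Set.Icc (f t) (f t0) from ⟨hcon, hf0.le⟩)
    exact hne z (by linarith [hz.1]) (by linarith [hz.2]) hz0
  · obtain ⟨z, hz, hz0⟩ := intermediate_value_Icc' hle hc.continuousOn
      (show (0 : ℝ) ∈ Set.Icc (f t) (f t0) from ⟨hcon, hf0.le⟩)
    exact hne z (by linarith [hz.1]) (by linarith [hz.2]) hz0

lemma sign_neg {a b t0 : ℝ} (hc : Continuous f) (hne : ∀ t, a < t → t < b → f t ≠ 0)
    (h0 : a < t0) (h1 : t0 < b) (hf0 : f t0 < 0) : ∀ t, a < t → t < b → f t < 0 := by
  intro t ht htb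
  have := sign_pos (f := fun x => -f x) hc.neg (fun t h1 h2 h3 => hne t h1 h2 (by linarith))
    h0 h1 (by linarith) t ht htb
  linarith

lemma posgap (h : Sol f) {z : ℝ} (hz : 0 < z) (hfz : f z = 0)
    (hpos : ∀ t, 0 < t → t < z → 0 < f t) : False := by
  by_cases H : ∃ x, 0 < x ∧ x < z ∧ z ≤ G f x
  · obtain ⟨x, hx0, hxz, hGx⟩ := H
    obtain ⟨v, hv0, hvx, hv⟩ := preimage_iter h.G_cont h.G_zero 1 hx0 hz
      (by simpa using hGx)
    simp only [iterate_one] at hv
    have h1 : f v = z - v := by simp only [G] at hv; linarith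
    have h2 : 0 < f v := hpos v hv0 (by linarith)
    have h3 : 0 < f (f v) := hpos _ h2 (by linarith)
    have h4 := h.comm v
    rw [hv, hfz] at h4
    simp only [G] at h4
    linarith
  · push Not at H
    have hinv : ∀ n : ℕ, ∀ y, 0 < y → y < z → 0 < (G f)^[n] y ∧ (G f)^[n] y < z ∧
        y ≤ (G f)^[n] y := by
      intro n
      induction n with
      | zero => intro y hy hyz; exact ⟨hy, hyz, le_rfl⟩
      | succ n ih =>
        intro y hy hyz
        obtain ⟨i1, i2, i3⟩ := ih y hy hyz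
        rw [iterate_succ_apply']
        have h1 := hpos _ i1 i2
        have h2 := H _ i1 i2
        refine ⟨?_, h2, ?_⟩
        · simp only [G]; linarith
        · simp only [G]; linarith
    have hx0 : 0 < z / 2 := by linarith
    have hxz : z / 2 < z := by linarith
    have hy0 := hpos _ hx0 hxz
    have hyz : f (z / 2) < z := by
      have := H _ hx0 hxz
      simp only [G] at this; linarith
    have hgrow : ∀ n : ℕ, z / 2 + n * f (z / 2) ≤ (G f)^[n] (z / 2) := by
      intro n
      induction n with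
      | zero => simp
      | succ n ih =>
        rw [iterate_succ_apply']
        have h1 : f ((G f)^[n] (z / 2)) = (G f)^[n] (f (z / 2)) :=
          iter_comm (R := f) (S := G f) h.comm n (z / 2)
        have h2 := (hinv n _ hy0 hyz).2.2
        have h3 : G f ((G f)^[n] (z / 2)) = (G f)^[n] (z / 2) + f ((G f)^[n] (z / 2)) := rfl
        rw [h3, h1]
        push_cast
        linarith
    exact nat_contra (x := z) hy0 (fun n => by
      have h1 := hgrow n
      have h2 := (hinv n _ hx0 hxz).2.1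
      linarith)

lemma neggap (h : Sol f) {z δ : ℝ} (hz : 0 < z) (hfz : f z = 0)
    (hneg : ∀ t, 0 < t → t < z → f t < 0) (hδ : 0 < δ)
    (hpos : ∀ t, -δ < t → t < 0 → 0 < f t) : False := by
  have hc1 : f (2 * z / 3) < 0 := hneg _ (by linarith) (by linarith)
  obtain ⟨t0, ht0, ht0max⟩ := (isCompact_Icc (a := z / 3) (b := 2 * z / 3)).exists_isMaxOn
    ⟨z / 3, ⟨le_rfl, by linarith⟩⟩ h.cont.continuousOn
  have hc0 : f t0 < 0 := hneg _ (by linarith [ht0.1]) (by linarith [ht0.2])
  have hmax : ∀ t, z / 3 ≤ t → t ≤ 2 * z / 3 → f t ≤ f t0 := fun t h1 h2 => ht0max ⟨h1, h2⟩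
  obtain ⟨ε, hε0, hε1, hε2, hε3, hε4⟩ : ∃ ε : ℝ, 0 < ε ∧ ε ≤ -f (2 * z / 3) ∧ ε ≤ z / 3 ∧
      ε ≤ δ ∧ ε ≤ -f t0 := by
    refine ⟨min (min (-f (2 * z / 3)) (z / 3)) (min δ (-f t0)), ?_, ?_, ?_, ?_, ?_⟩
    · exact lt_min (lt_min (by linarith) (by linarith)) (lt_min hδ (by linarith))
    · exact (min_le_left _ _).trans (min_le_left _ _)
    · exact (min_le_left _ _).trans (min_le_right _ _)
    · exact (min_le_right _ _).trans (min_le_left _ _)
    · exact (min_le_right _ _).trans (min_le_right _ _)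
  have hI := intermediate_value_Icc (show 2 * z / 3 ≤ z by linarith) h.cont.continuousOn
  have hpre : ∀ y, -ε < y → y < 0 → ∃ x, 2 * z / 3 < x ∧ x < z ∧ f x = y := by
    intro y hy1 hy2
    obtain ⟨x, hx, hxy⟩ := hI (show y ∈ Set.Icc (f (2 * z / 3)) (f z) by
      rw [hfz]; constructor <;> linarith)
    refine ⟨x, ?_, ?_, hxy⟩
    · rcases hx.1.eq_or_lt with h0 | h0
      · exfalso
        rw [← h0] at hxy
        linarith
      · exact h0
    · rcases hx.2.eq_or_lt with h0 | h0
      · exfalso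
        rw [h0, hfz] at hxy
        linarith
      · exact h0
  have hmove : ∀ y, -ε < y → y < 0 → y < G f y ∧ G f y < 0 := by
    intro y hy1 hy2
    obtain ⟨x, hx1, hx2, hxy⟩ := hpre y hy1 hy2
    constructor
    · have := hpos y (by linarith) hy2
      simp only [G]; linarith
    · rw [← hxy, ← h.comm]
      apply hneg
      · simp only [G]; linarith
      · simp only [G]; linarith
  obtain ⟨x0, hx01, hx02, hx0y⟩ := hpre (-(ε / 2)) (by linarith) (by linarith)
  have horb : ∀ n : ℕ, 2 * z / 3 < (G f)^[n] x0 ∧ (G f)^[n] x0 ≤ x0 ∧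
      -(ε / 2) ≤ f ((G f)^[n] x0) ∧ f ((G f)^[n] x0) < 0 := by
    intro n
    induction n with
    | zero => simp only [iterate_zero, id]; exact ⟨hx01, le_rfl, by linarith, by linarith⟩
    | succ n ih =>
      obtain ⟨i1, i2, i3, i4⟩ := ih
      rw [iterate_succ_apply']
      obtain ⟨m1, m2⟩ := hmove _ (show -ε < f ((G f)^[n] x0) by linarith) i4
      have h1 : f (G f ((G f)^[n] x0)) = G f (f ((G f)^[n] x0)) := h.comm _
      have h2 : G f ((G f)^[n] x0) = (G f)^[n] x0 + f ((G f)^[n] x0) := rfl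
      refine ⟨?_, by rw [h2]; linarith, by rw [h1]; linarith, by rw [h1]; exact m2⟩
      by_contra hcon
      push Not at hcon
      have h3 := hmax _ (by rw [h2]; linarith) hcon
      rw [h1] at h3
      linarith
  obtain ⟨t1, ht1, ht1max⟩ := (isCompact_Icc (a := 2 * z / 3) (b := x0)).exists_isMaxOn
    ⟨x0, ⟨hx01.le, le_rfl⟩⟩ h.cont.continuousOn
  have hm0 : f t1 < 0 := hneg _ (by linarith [ht1.1]) (by linarith [ht1.2])
  have hdec : ∀ n : ℕ, (G f)^[n] x0 ≤ x0 - n * (-f t1) := by
    intro n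
    induction n with
    | zero => simp
    | succ n ih =>
      rw [iterate_succ_apply']
      obtain ⟨i1, i2, i3, i4⟩ := horb n
      have h1 : f ((G f)^[n] x0) ≤ f t1 := ht1max ⟨i1.le, i2⟩
      have h2 : G f ((G f)^[n] x0) = (G f)^[n] x0 + f ((G f)^[n] x0) := rfl
      rw [h2]
      push_cast
      linarith
  exact nat_contra (x := x0) (neg_pos.mpr hm0) (fun n => by
    have h1 := hdec n
    have h2 := (horb n).1
    linarith)

lemma near_neg (h : Sol f) {p q : ℝ} (hp : 0 < p) (hfp : f p < 0) (hq : q < 0)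
    (hfq : 0 < f q) : ∃ δ > 0, ∀ t, 0 < t → t < δ → f t < 0 := by
  obtain ⟨δ, hδ, hno⟩ := no_accum h hp hfp hq hfq
  refine ⟨δ, hδ, ?_⟩
  rcases lt_or_gt_of_ne (hno (δ / 2) (by linarith) (by linarith)) with h0 | h0
  · exact sign_neg h.cont hno (by linarith) (by linarith) h0
  · exfalso
    have hposδ := sign_pos h.cont hno (show 0 < δ / 2 by linarith) (by linarith) h0
    -- a zero between δ/2 and p
    have hpδ : δ / 2 ≤ p := by
      by_contra hcon
      push Not at hcon
      have := hposδ p hp (by linarith)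
      linarith
    obtain ⟨z, hz, hz0⟩ := intermediate_value_Icc' hpδ h.cont.continuousOn
      (show (0 : ℝ) ∈ Set.Icc (f p) (f (δ / 2)) from ⟨hfp.le, h0.le⟩)
    obtain ⟨z1, hz1, hfz1, hz1no⟩ := least_zero h hδ hno (show 0 < z by linarith [hz.1]) hz0
    have hδz1 : δ ≤ z1 := by
      by_contra hcon
      push Not at hcon
      exact hno z1 hz1 hcon hfz1
    exact posgap h hz1 hfz1 (sign_pos h.cont hz1no (show 0 < δ / 2 by linarith)
      (by linarith) h0)

theorem SR_of_neg (h : Sol f) {p : ℝ} (hp : 0 < p) (hfp : f p < 0) : SR f := by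
  obtain ⟨q, hq, hfq⟩ := exists_neg_side h hp hfp
  have main : ∀ g : ℝ → ℝ, Sol g → ∀ p q : ℝ, 0 < p → g p < 0 → q < 0 → 0 < g q →
      ∀ t, 0 < t → g t < 0 := by
    intro g hg p q hp hgp hq hgq
    obtain ⟨δ, hδ, hδn⟩ := near_neg hg hp hgp hq hgq
    obtain ⟨δ', hδ', hδn'⟩ := near_neg hg.neg (p := -q) (q := -p) (by linarith)
      (by simp only [neg_neg]; linarith) (by linarith) (by simp only [neg_neg]; linarith)
    have hposn : ∀ t, -δ' < t → t < 0 → 0 < g t := by
      intro t h1 h2
      have := hδn' (-t) (by linarith) (by linarith)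
      simp only [neg_neg] at this
      linarith
    have hnz : ∀ z, 0 < z → g z ≠ 0 := by
      intro z hz hgz
      obtain ⟨z1, hz1, hgz1, hz1no⟩ := least_zero hg hδ
        (fun t h1 h2 => (hδn t h1 h2).ne) hz hgz
      have hδz1 : δ ≤ z1 := by
        by_contra hcon
        push Not at hcon
        exact (hδn z1 hz1 hcon).ne hgz1
      exact neggap hg hz1 hgz1 (sign_neg hg.cont hz1no (show 0 < δ / 2 by linarith)
        (by linarith) (hδn _ (by linarith) (by linarith))) hδ' hposn
    intro t ht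
    exact sign_neg hg.cont (a := 0) (b := max t p + 1) (fun z h1 _ => hnz z h1) hp
      (by linarith [le_max_right t p]) hgp t ht (by linarith [le_max_left t p])
  have h1 := main f h p q hp hfp hq hfq
  have h2 := main _ h.neg (-q) (-p) (by linarith) (by simp only [neg_neg]; linarith)
    (by linarith) (by simp only [neg_neg]; linarith)
  intro x hx
  rcases lt_or_gt_of_ne hx with h0 | h0
  · have := h2 (-x) (by linarith)
    simp only [neg_neg] at this
    exact mul_neg_of_neg_of_pos h0 (by linarith)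
  · exact mul_neg_of_pos_of_neg h0 (h1 x h0)

theorem classification (f : ℝ → ℝ) (hf : Continuous f) :
    (∀ x, f (x + f x) = f x + f (f x)) ↔
      ((∃ a b : ℝ, 0 ≤ a ∧ 0 ≤ b ∧ ∀ x, f x = if 0 ≤ x then a * x else b * x) ∨
        ∃ c : ℝ, c < 0 ∧ ∀ x, f x = c * x) := by
  constructor
  · intro heq
    have h : Sol f := ⟨hf, heq⟩
    by_cases h1 : ∃ p, 0 < p ∧ f p < 0
    · obtain ⟨p, hp, hfp⟩ := h1
      right
      exact linear_of_SR h (SR_of_neg h hp hfp)
    by_cases h2 : ∃ q, q < 0 ∧ 0 < f q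
    · obtain ⟨q, hq, hfq⟩ := h2
      right
      obtain ⟨c, hc, hcx⟩ := linear_of_SR h.neg (SR_of_neg h.neg (p := -q) (by linarith)
        (by simp only [neg_neg]; linarith))
      refine ⟨c, hc, fun x => ?_⟩
      have := hcx (-x)
      simp only [neg_neg] at this
      linarith
    push Not at h1 h2
    left
    obtain ⟨a, ha, hax⟩ := partP h (by
      intro x hx
      rcases hx.eq_or_lt with h0 | h0
      · rw [← h0, h.zero]
      · exact h1 x h0)
    obtain ⟨b, hb, hbx⟩ := partP h.neg (by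
      intro x hx
      rcases hx.eq_or_lt with h0 | h0
      · simp [← h0, h.zero]
      · have := h2 (-x) (by linarith)
        show 0 ≤ -f (-x)
        linarith)
    refine ⟨a, b, ha, hb, ?_⟩
    intro x
    split_ifs with hx
    · exact hax x hx
    · push Not at hx
      have := hbx (-x) (by linarith)
      simp only [neg_neg] at this
      linarith
  · rintro (⟨a, b, ha, hb, hab⟩ | ⟨c, hc, hcx⟩)
    · intro x
      rcases le_or_gt 0 x with hx | hx
      · have e1 : f x = a * x := by rw [hab, if_pos hx]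
        have e2 : 0 ≤ a * x := mul_nonneg ha hx
        rw [e1, hab (x + a * x), if_pos (by linarith), hab (a * x), if_pos e2]
        ring
      · have e1 : f x = b * x := by rw [hab, if_neg (not_le.mpr hx)]
        rcases hb.eq_or_lt with h0 | h0
        · have e0 : f 0 = 0 := by rw [hab]; simp
          rw [e1, ← h0]
          simp [e0]
          rw [e1, ← h0]; ring
        · have e2 : b * x < 0 := mul_neg_of_pos_of_neg h0 hx
          rw [e1, hab (x + b * x), if_neg (by linarith), hab (b * x),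
            if_neg (not_le.mpr e2)]
          ring
    · intro x
      rw [hcx (x + f x), hcx (f x), hcx x]
      ring

end Pool.Agent.N282.FE
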